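import Pool.Agent.MVD.DefsLoc

/-!
# Necessity of the local condition in class c (statements of the rows)

Problem MP_23468a_al, squad MVD, second part.  GOAL (`LcnStmt`): `ModF β`, `x²` and `xyx` isoterms,
`Cc β` imply `IA β ∨ IAd β ∨ LC3 β ∨ LC3 (mir β)`.

Conventions as in Stmts.lean.  `z_i = 3 i + 1`.  V-equivalent = congruent modulo `β`.
PASSIVE = letter `z_i` with one occurrence in the main block and one in its place block (label
`i + 1`); `i ∈ P`: the place is left of the main block (L-passive: the occurrence in the main block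
is the last one), `i ∈ Q`: F-passive.  LOCAL = all occurrences in the main block.
S2 (CTX): adjacent occurrences `u v` commute if `u` occurs before and `v` after, or `v` before and
`u` after.  So an occurrence which is neither the first nor the last one (M) commutes with every
multiple letter, and a first occurrence commutes with a last occurrence.  FF (ZZ): the first (last)
occurrences of two letters commute if they have a later (earlier) occurrence in a common factor of
multiple letters, for instance if both are local.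
All rows can be started at once; hypotheses = the rows in the column uses, in this order.
-/

namespace Pool.Agent.MVD

open Pool.Agent.Helper14_MV Pool.Agent.Helper2_MV

/-! ## Block A: general lemmas -/

/-- IRL. Words can be inserted at the ends of the blocks.
PROOF. Substitute `3 r + 2 ↦ V r ++ [3 r + 2] ++ U r'` where `r'` is the element of `R` after `r`
(`Ue` instead of `U r'` if `r` is the last one), all other letters are fixed; multiply by `U r0` on
the left (`r0` first element of `R`) and by `Ve` on the right.  Induction on the suffixes of `R`. -/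
def IrlStmt : Prop := ∀ β : FIC, ∀ (R : List ℕ) (B B' U V : ℕ → List ℕ) (e e' Ue Ve : List ℕ),
  R.Nodup → (∀ r ∈ R, SFr (B r)) → (∀ r ∈ R, SFr (B' r)) → SFr e → SFr e' →
    RR β (Bw R B ++ e) (Bw R B' ++ e') →
      RR β (Bw R (fun r => U r ++ (B r ++ V r)) ++ (Ue ++ (e ++ Ve)))
        (Bw R (fun r => U r ++ (B' r ++ V r)) ++ (Ue ++ (e' ++ Ve)))

/-- SHA. The shape of equivalent words.
PROOF. DEC, KP2, KPL; `SQ β` gives `IA β` (substitute `t := x` in `x² t ≈ t x²`), so `¬ SQ β`; the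
letters which do not occur: `RR.content`. -/
def ShaStmt : Prop := ∀ β : FIC, Iso2 β → Iso3 β → ¬ IA β → ∀ (R : List ℕ) (B : ℕ → List ℕ)
  (w' : List ℕ), R.Nodup → (∀ r ∈ R, SFr (B r)) → RR β (Bw R B) w' →
    ∃ (B' : ℕ → List ℕ) (e : List ℕ), (∀ r, SFr (B' r)) ∧ SFr e ∧ w' = Bw R B' ++ e ∧
      (∀ c, (∀ r ∈ R, c ∉ B r) → (∀ r ∈ R, c ∉ B' r) ∧ c ∉ e) ∧
      (∀ c r s, c % 3 ≠ 2 → r ∈ R → s ∈ R → r ≠ s →
        (∀ q ∈ R, (B q).count c = if q = r ∨ q = s then 1 else 0) →
          (∀ q ∈ R, (B' q).count c = if q = r ∨ q = s then 1 else 0) ∧ e.count c = 0) ∧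
      ∀ c r, c % 3 ≠ 2 → r ∈ R → (∀ q ∈ R, (B q).count c = if q = r then 2 else 0) →
        (∀ q ∈ R, (B' q).count c = if q = r then 2 else 0) ∧ e.count c = 0

/-- RGA. A local letter `a` of degree 2 and an L-passive `b`: the order of the last occurrences is
kept.
PROOF. Project to `a`, `b` and the separator `t = 3 s + 2`: `b t` followed by `aab`, `aba` or `baa`.
`aba ≈ baa` by S2.  If `LA` holds for one of the words and not for the other then
`b t aab ≈ b t baa`: this is `IA` (rename). -/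
def RgaStmt : Prop := ∀ β : FIC, S2 β → ¬ IA β → ∀ (R : List ℕ) (B B' : ℕ → List ℕ)
  (e e' : List ℕ), R.Nodup → (∀ r ∈ R, SFr (B r)) → (∀ r ∈ R, SFr (B' r)) → SFr e → SFr e' →
    RR β (Bw R B ++ e) (Bw R B' ++ e') → ∀ a b m s : ℕ, a ≠ b → a % 3 ≠ 2 → b % 3 ≠ 2 →
      Bfr R s m →
      (∀ q ∈ R, (B q).count a = if q = m then 2 else 0) →
      (∀ q ∈ R, (B' q).count a = if q = m then 2 else 0) →
      (∀ q ∈ R, (B q).count b = if q = s ∨ q = m then 1 else 0) →
      (∀ q ∈ R, (B' q).count b = if q = s ∨ q = m then 1 else 0) →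
      e.count a = 0 → e.count b = 0 → e'.count a = 0 → e'.count b = 0 →
        (LA a b (B m) ↔ LA a b (B' m))

/-- RGD. Mirror image of RGA: a local letter `a` of degree 2 and an F-passive `b`: the order of the
first occurrences is kept.
PROOF. As RGA: `aab t b`, `aba t b` (equivalent by S2) and `baa t b`; otherwise `IAd`. -/
def RgdStmt : Prop := ∀ β : FIC, S2 β → ¬ IAd β → ∀ (R : List ℕ) (B B' : ℕ → List ℕ)
  (e e' : List ℕ), R.Nodup → (∀ r ∈ R, SFr (B r)) → (∀ r ∈ R, SFr (B' r)) → SFr e → SFr e' →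
    RR β (Bw R B ++ e) (Bw R B' ++ e') → ∀ a b m s : ℕ, a ≠ b → a % 3 ≠ 2 → b % 3 ≠ 2 →
      Bfr R m s →
      (∀ q ∈ R, (B q).count a = if q = m then 2 else 0) →
      (∀ q ∈ R, (B' q).count a = if q = m then 2 else 0) →
      (∀ q ∈ R, (B q).count b = if q = s ∨ q = m then 1 else 0) →
      (∀ q ∈ R, (B' q).count b = if q = s ∨ q = m then 1 else 0) →
      e.count a = 0 → e.count b = 0 → e'.count a = 0 → e'.count b = 0 →
        (FA a b (B m) ↔ FA a b (B' m))

/-- GTM. Gathering the letters `c` of one block.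
PROOF. `c ∈ p`: every `c` of `A` which is not the last `c` of `A` is M; move them to the right to the
last `c` (S2; a letter `a ≠ c` of `A` is multiple, so it occurs before or after).  `c ∈ q`: move to
the left, to the first `c` of `A`.  Otherwise `A = c^i z c^j` (or `c^i`): `z` occurs in `p` or in
`q`.  `z ∈ q`: if `i ≥ 1` the right `c` move to the left over `z` (`c` before, `z` after), if
`i = 0` nothing to do.  `z ∈ p`: if `j ≥ 1` the left `c` move to the right, if `j = 0` nothing. -/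
def GtmStmt : Prop := ∀ β : FIC, S2 β → ∀ (p A q : List ℕ) (c : ℕ),
  (∀ a ∈ A, a ≠ c → 2 ≤ (p ++ (A ++ q)).count a) →
    (c ∈ p ∨ c ∈ q ∨ (A.filter (fun a => decide (a ≠ c))).length ≤ 1) →
      ∃ g1 g2, g1 ++ g2 = A.filter (fun a => decide (a ≠ c)) ∧
        RR β (p ++ (A ++ q)) (p ++ (g1 ++ (List.replicate (A.count c) c ++ (g2 ++ q))))

/-- CTG. Gathering the letters `c` in all blocks.
PROOF. GTM for one block after the other (induction on `R` with a prefix `p`; the earlier blocks are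
changed but not their counts).  `(B r).count c <` total count means that `c` occurs in the part
before or after the block `r`. -/
def CtgStmt : Prop := ∀ β : FIC, S2 β → ∀ (R : List ℕ) (B : ℕ → List ℕ) (e : List ℕ) (c : ℕ),
  R.Nodup → c % 3 ≠ 2 → (∀ r ∈ R, ∀ a ∈ B r, a ≠ c → 2 ≤ (Bw R B ++ e).count a) →
    (∀ r ∈ R, ((B r).filter (fun a => decide (a ≠ c))).length ≤ 1 ∨
      (B r).count c < (Bw R B ++ e).count c) →
      ∃ U V : ℕ → List ℕ, (∀ r ∈ R, U r ++ V r = (B r).filter (fun a => decide (a ≠ c))) ∧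
        RR β (Bw R B ++ e)
          (Bw R (fun r => U r ++ (List.replicate ((B r).count c) c ++ V r)) ++ e)

/-- INX. As INW, with given images of the letters `≡ 0 (mod 3)`.
PROOF. INW (with a letter `y` which is not in `p`, `q`) gives `P`, `Q`, `g`, `M` with
`p ++ (L.flatMap g ++ q) = M ++ (Wm P Q L).flatMap g`; for `L = [0]`, `g 0 = [y]`, this gives
`p = M ++ ` (image of the part left of the main block) and `q = ` (image of the rest); these parts
contain no letter `≡ 0 (mod 3)`, so `g` can be changed there. -/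
def InxStmt : Prop := ∀ (p q D : List ℕ) (h : ℕ → List ℕ), D.Nodup → (∀ a ∈ D, a ∈ p ∨ a ∈ q) →
  ∃ (P Q : List ℕ) (g : ℕ → List ℕ) (M : List ℕ), (P ++ Q).Perm (List.range D.length) ∧
    (∀ L : List ℕ, p ++ (L.flatMap g ++ q) = M ++ (Wm P Q L).flatMap g) ∧
    (∀ c, c % 3 = 0 → g c = h c) ∧ ∀ e (he : e < D.length), g (3 * e + 1) = [D[e]]

/-- INE. The same with two places of a letter `x`.
PROOF. `p = A1 x A2 x A3`.  The letters of `D` in `A1` get places there, the other letters of `D` in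
`A2` there, the other ones in `A3` there, the remaining ones in `q` (skeleton lemma of INW, see
Helper10_MVD/INW.lean and Helper97_MVD/INS.lean: `A = g0 ++ P.flatMap (fun a => a :: g a)`). -/
def IneStmt : Prop := ∀ (p q D : List ℕ) (h : ℕ → List ℕ) (x : ℕ), D.Nodup → x ∉ D →
  2 ≤ p.count x → (∀ a ∈ D, a ∈ p ∨ a ∈ q) →
    ∃ (P1 P2 P3 Q : List ℕ) (g : ℕ → List ℕ) (M : List ℕ),
      (P1 ++ (P2 ++ (P3 ++ Q))).Perm (List.range D.length) ∧
      (∀ L : List ℕ, p ++ (L.flatMap g ++ q) =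
        M ++ (EW 9 D.length (D.length + 1) P1 P2 P3 Q L).flatMap g) ∧
      g 9 = [x] ∧ (∀ c, c % 3 = 0 → c ≠ 9 → g c = h c) ∧
      ∀ e (he : e < D.length), g (3 * e + 1) = [D[e]]

/-- MRL. The mirror image.
PROOF. As MIR (`RR (mir β) l l' ↔ RR β l.reverse l'.reverse`): reverse both words and rename. -/
def MrlStmt : Prop := ∀ β : FIC, (IA (mir β) ↔ IAd β) ∧ (IAd (mir β) ↔ IA β) ∧
  (Hc β → Hc (mir β)) ∧ (∀ n, GF (mir β) n ↔ GFd β n) ∧ (∀ n, GFd (mir β) n ↔ GF β n) ∧
  (E32 (mir β) ↔ E32d β) ∧ (E32d (mir β) ↔ E32 β) ∧ (E23 (mir β) ↔ E23d β) ∧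
  (E23d (mir β) ↔ E23 β)

/-- GFK. `GF` for more letters.
PROOF. `v d v^(k-1) ≈ v^(k-2) d v v` (the M letters `v` move to the left over `d`: S2)
`≈ v^(k-3) v v v d` (`GF` with `p v^(k-3)`). -/
def GfkStmt : Prop := ∀ β : FIC, S2 β → ∀ n, GF β n → ∀ (p d q : List ℕ) (v k : ℕ), 3 ≤ k →
  d.length ≤ n → v ∉ d → Mult d (p ++ v :: (d ++ (List.replicate (k - 1) v ++ q))) →
    RR β (p ++ v :: (d ++ (List.replicate (k - 1) v ++ q)))
      (p ++ (List.replicate k v ++ (d ++ q)))

/-- CPW. Large powers are central; periodicity of the powers.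
PROOF. First part: `B2` in Helper14_MV/B2.lean (`x ^ m y ≈ y x ^ m` for `m ≥ k`): substitute
`y := A`.  (`Iso2` gives its hypothesis `∀ w, β.r (lx ^ 2) w → w = lx ^ 2`.)  Second part: multiply
`x^3 ≈ x^N` by powers of `x` and iterate. -/
def CpwStmt : Prop :=
  (∀ β : FIC, ModF β → Iso2 β → ∃ k, ∀ m, k ≤ m → ∀ (p A q : List ℕ) (y : ℕ),
    RR β (p ++ (List.replicate m y ++ (A ++ q))) (p ++ (A ++ (List.replicate m y ++ q)))) ∧
  ∀ β : FIC, ∀ N, 3 ≤ N → RR β (List.replicate 3 0) (List.replicate N 0) → ∀ m j, 3 ≤ m →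
    RR β (List.replicate m 0) (List.replicate (m + j * (N - 3)) 0)

/-- EIS. Inserting two places of `x`.
PROOF. IRL for the labels `lab (P1 ++ (P2 ++ P3)) Q` with `U` and `V` which contain separators: the
block of `s1`, that is `[x, 3 (s1 + 1) + 2]`, is inserted at the beginning of the block of the next
label (of `P2`, or together with the block of `s2` if `P2 = []`, and so on). -/
def EisStmt : Prop := ∀ β : FIC, ∀ (x s1 s2 : ℕ) (P1 P2 P3 Q K K' U V : List ℕ),
  ((P1 ++ s1 :: (P2 ++ s2 :: P3)) ++ Q).Nodup → SFr K → SFr K' →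
    RR β (Wm (P1 ++ (P2 ++ P3)) Q K) (Wm (P1 ++ (P2 ++ P3)) Q K') →
      RR β (EW x s1 s2 P1 P2 P3 Q (U ++ (K ++ V))) (EW x s1 s2 P1 P2 P3 Q (U ++ (K' ++ V)))

/-- SNG. A factor which occurs twice and contains a passive.
PROOF. `F` contains no separator (a separator occurs at most once in the word: the labels are
different, the blocks and `e` have none).  So (FAC) both occurrences of `F` are in blocks (or in
`e`).  `z_i = 3 i + 1` occurs exactly twice in the word: in the blocks `0` and `i + 1`.  So one `F`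
is a factor of `B 0` and the other one of `B (i + 1)`. -/
def SngStmt : Prop := ∀ (P Q : List ℕ) (B : ℕ → List ℕ) (e : List ℕ) (i : ℕ)
  (X1 F X2 X3 : List ℕ), (P ++ Q).Nodup → (∀ r ∈ lab P Q, SFr (B r)) → SFr e → i ∈ P ++ Q →
    (B 0).count (3 * i + 1) = 1 → (B (i + 1)).count (3 * i + 1) = 1 →
    (Bw (lab P Q) B ++ e).count (3 * i + 1) = 2 →
    Bw (lab P Q) B ++ e = X1 ++ (F ++ (X2 ++ (F ++ X3))) → 3 * i + 1 ∈ F →
      ∀ a ∈ F, a ∈ B (i + 1) ∧ a ∈ B 0

/-- CNT. THE COUNTING LEMMA.  `S`: simple passives, in the word `W = Wk κ P Q L` and in the word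
`w = M φ(W) N`.
PROOF. Every letter of `L` occurs at least twice in `W`, so `F = L.flatMap φ` contains no separator
of `w` (they occur once).  `d ∈ F` and all `k` letters `d` of `w` are in `B 0`, so (FAC)
`B 0 = a ++ F ++ c`, and `M ++` (image of the part of `W` left of the main block) `=` (part of `w`
left of `B 0`) `++ a`.  `φ g` contains `d`, `g` occurs `k` times in `L`, `d` occurs `k` times in
`w`: every letter `d` of `w` comes from one of the `g` of `L`, one from each, all in `F`.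
Let `i ∈ S`, `i ∈ P` and `Btw d z_i (B 0)`.  The occurrence of `z_i` in `B 0` is between the first
and the last `d`, so in `F`, and comes from an occurrence of a letter `h` of `L` which is between
two `g` (`h ≠ g`: otherwise `z_i` would be `k ≥ 2` times in `B 0`); `L.count h = 1` (`z_i` is once
in `B 0`), and `h` does not occur three times in `W` (`z_i` is twice in `w`); so `h = 3 j + 1`,
`j ∈ S`.  The image of the place of `z_j` contains the other `z_i`, which is in the block `i + 1`,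
left of the block `0`; so `j ∈ P`.  `j` is determined by `i`; `i ↦ j` is injective (the image of the
place of `z_j` is a factor without separators, so it is in the block `i + 1`) and monotone with
respect to the order of the places in `P`: an injective monotone map of the finite ordered set
`S ∩ P` to itself is the identity.  So `Btw g z_i L` and `z_i ∈ φ z_i`.  The same for `Q`. -/
def CntStmt : Prop := ∀ (κ : ℕ → ℕ) (P Q L S : List ℕ) (φ : ℕ → List ℕ) (M N : List ℕ)
  (B : ℕ → List ℕ) (e : List ℕ) (g d k : ℕ), (P ++ Q).Nodup →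
    (∀ i ∈ S, i ∈ P ++ Q ∧ κ i = 3 * i + 1 ∧ L.count (3 * i + 1) = 1 ∧
      (Wk κ P Q L).count (3 * i + 1) = 2) →
    (∀ a ∈ L, (∃ i ∈ S, a = 3 * i + 1) ∨ 2 ≤ L.count a ∨ 3 ≤ (Wk κ P Q L).count a) →
    (∀ r ∈ lab P Q, SFr (B r)) → SFr e →
    (∀ i ∈ S, (B 0).count (3 * i + 1) = 1 ∧ (B (i + 1)).count (3 * i + 1) = 1 ∧
      (Bw (lab P Q) B ++ e).count (3 * i + 1) = 2) →
    M ++ ((Wk κ P Q L).flatMap φ ++ N) = Bw (lab P Q) B ++ e →
    2 ≤ k → L.count g = k → d ∈ φ g → (Bw (lab P Q) B ++ e).count d = k → (B 0).count d = k →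
      ((∀ i ∈ S, i ∈ P → Btw d (3 * i + 1) (B 0)) →
        ∀ i ∈ S, i ∈ P → Btw g (3 * i + 1) L ∧ 3 * i + 1 ∈ φ (3 * i + 1)) ∧
      ((∀ i ∈ S, i ∈ Q → Btw d (3 * i + 1) (B 0)) →
        ∀ i ∈ S, i ∈ Q → Btw g (3 * i + 1) L ∧ 3 * i + 1 ∈ φ (3 * i + 1))

/-! ## Block B: one letter -/

/-- TY3. If `CB` does not hold then a letter with three occurrences in one block keeps its block.
PROOF. Project to `c` and the separators; `N` = number of `c` in the second word; `N ≥ 3` by `Iso2`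
(`c³ ≈ c^N`; `N = 0, 1, 2` contradicts that `x²` is an isoterm).
* `N ≥ 4`: `x³ ≈ x^m` for arbitrarily large `m` (CPW), and `x^m` is central (CPW); so `x³` is
central and `CB` holds (move `yyy` over `x`).
* `N = 3` and the vector is different: for some separator `t` the number of `c` before `t` is
different: `yyy t` or `t yyy` is equivalent to `y^i t y^(3-i)`, another word.  With `x = 0`,
`y = 3`, `s` = separator: (a) `yyy t ≈ t yyy`: `t := x`.  (b) `yyy t ≈ y t yy` or `yy t y`: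
`x s yyy x ≈ x s y x yy` (or `x s yy x y`) `≈ x s x yyy` by S2 (`x` before, `y` after).
(c) `t yyy ≈ y t yy` or `yy t y`: `x s yyy x ≈ y x s yy x` (`t := x s`) `≈ y x s y x y` (ZZ: `y`,
`x` are adjacent at the beginning) `≈ y x s x yy` (S2) `≈ x s x yyy` (`t := x s x`); for `yy t y`:
`x s yyy x ≈ yy x s y x ≈ yy x s x y ≈ x s x yyy`. -/
def Ty3Stmt : Prop := ∀ β : FIC, ModF β → Iso2 β → Iso3 β → S2 β → ZZ β → ¬ CB β →
  ∀ (R : List ℕ) (B B' : ℕ → List ℕ) (e : List ℕ) (c r : ℕ), R.Nodup →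
    (∀ r ∈ R, SFr (B r)) → (∀ r ∈ R, SFr (B' r)) → SFr e →
    RR β (Bw R B) (Bw R B' ++ e) → c % 3 ≠ 2 → r ∈ R →
      (∀ q ∈ R, (B q).count c = if q = r then 3 else 0) →
        (∀ q ∈ R, (B' q).count c = if q = r then 3 else 0) ∧ e.count c = 0

/-- VEC. PROOF. Let `x t x s x r ≈ x^b1 t x^b2 s x^b3 r x^b4` in `β` (here `x = 0`, `t = 2`,
`s = 5`, `r = 8`), not `b3 = 1 ∧ b4 = 0`.  Word of `EF`: `p = p1 x p2 x p3`.  Substitute
`t := p2`, `s := p3 y c`, `r := y`: `p y c x y q ≈ p1 x^b1 p2 x^b2 p3 y c x^b3 y x^b4 q`; substitute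
`s := p3 y c y`, `r := 1`: `p y c y x q ≈ p1 x^b1 p2 x^b2 p3 y c y x^b3 x^b4 q`.  The two right sides
are equivalent: `b3 = 0`: equal.  `b3, b4 ≥ 1`: `x^b3` moves over the second `y` (S2: `y` before,
`x` after).  `b4 = 0`, `b3 ≥ 2`: the last `x` and the last `y` commute by ZZ (`y c x` before, letters
of `c` multiple), the other `x` by S2.  So `EF β n` for all `n`. -/
def VecStmt : Prop := ∀ β : FIC, S2 β → ZZ β → VX β ∨ ∀ n, EF β n

/-- XVB. `VX` for blocks.
PROOF. For `q = r2` and for `q` in `R3` project to `c` and the separators of `r1`, `q`, `m`: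
`c t c s c r ≈ c^b1 t c^b2 s c^b3 r c^b4`, so after renaming `b3 = 1`, `b4 = 0`: exactly one `c`
between the separators of `q` and `m` and none after the separator of `m`.  (For `q = r2` and for
the last `q` in `R3`: so none in the blocks of `R3`.) -/
def XvbStmt : Prop := ∀ β : FIC, VX β → ∀ (R1 R2 R3 R4 : List ℕ) (r1 r2 m : ℕ)
  (B B' : ℕ → List ℕ) (e : List ℕ) (c : ℕ),
    (R1 ++ r1 :: (R2 ++ r2 :: (R3 ++ m :: R4))).Nodup →
    (∀ r ∈ R1 ++ r1 :: (R2 ++ r2 :: (R3 ++ m :: R4)), SFr (B r)) →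
    (∀ r ∈ R1 ++ r1 :: (R2 ++ r2 :: (R3 ++ m :: R4)), SFr (B' r)) → SFr e → c % 3 ≠ 2 →
    (∀ q ∈ R1 ++ r1 :: (R2 ++ r2 :: (R3 ++ m :: R4)),
      (B q).count c = if q = r1 ∨ q = r2 ∨ q = m then 1 else 0) →
    RR β (Bw (R1 ++ r1 :: (R2 ++ r2 :: (R3 ++ m :: R4))) B)
      (Bw (R1 ++ r1 :: (R2 ++ r2 :: (R3 ++ m :: R4))) B' ++ e) →
        (B' m).count c = 1 ∧ (∀ q ∈ R3 ++ R4, (B' q).count c = 0) ∧ e.count c = 0

/-! ## Block C: two small pentagons

PEN with `ρ = β + G1`, `σ = β + G2`, `τ = β + G3` (GEN), `G1 = {(V01, V11)}`,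
`G2 = {(V00, V01), (V10, V11)}`, `G3 = {(V01, V11), (V00, V10)}`; `w0 = V00`, `w1 = V10`; chain
`V00 σ V01 ρ V11 σ V10`; `ρ ≤ τ`; `A = B ∩ C`.  To show: `β` keeps `B` and `C` (closed under
equivalence), the substitution instances of `G2` keep `B`, those of `G3` keep `C`, those of `G1`
keep `B ∩ C` (it is enough that they go from `B ∩ C` to `B`), `V00 ∈ B ∩ C`, `V10 ∉ B`. -/

/-- NCB. PROOF. Suppose not.  Letters `y = 0`, `w = 3`, `x = 1` (place `0`, left), `z = 4` (place `1`,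
right).  `V00 = Wm [0] [1] [0,4,3,3,1,0,0]`, `V01`: `[0,3,4,3,1,0,0]`, `V10`: `[0,4,3,3,0,0,1]`,
`V11`: `[0,3,4,3,0,0,1]`.
`B`: `v.filter (≠ 4) = 1 :: 5 :: (K ++ [2, 8])` with `K.Perm [0,0,0,3,3,1]`, `LA 3 1 K`, `LA 1 0 K`.
`C`: `v.filter (≠ 1) = 5 :: (K ++ [2, 4, 8])` with `K.Perm [0,0,0,3,3,4]`, `FA 0 4 K`, `FA 4 3 K`.
`β` keeps `B`, `C`: SHA for `1, 3, 4`, TY3 for `0`; RGA for `3, 1`; `LA 1 0`: otherwise project to
`0, 1, 5`: (S2) `1 5 1 000 ≈ 1 5 000 1`, `CB`; RGD for `3, 4`; `FA 0 4`: otherwise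
`000 4 2 4 ≈ 4 000 2 4`, this is `CB` for `mir β`.
Instances.  Let `v = M φ(V) N`, `F = φ(main block of V)`; every letter of the main block occurs at
least twice in `V`, so `F` has no separator; `F` lies in one block of `v`.
`G2` keeps `B` (exchange of `z` and the first `w`; letter `4` deleted everywhere, `φ' = φ` without
`4`): if `φ'(4)`, `φ'(3)` are not empty, `F` contains a letter twice, so it is in the main block;
`φ'(3)`, `φ'(4)` contain no `1` (`φ(3)` is twice in `F`; `φ(4)` occurs also right of the main block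
of `V`).  All letters of `φ'(3)`, `φ'(4)` occur again later: the exchange does not change the last
occurrences and their order with `1`.  So `B` is kept.
`G3` keeps `C` (exchange of `x` and the last `yy`; `φ'` = without `1`): if `φ'(1)`, `φ'(0)` are not
empty: a letter of `φ'(0)` is three times in `F`: it is `0`, `F` is in the main block, `φ'(0) = [0]`
and all `0` of `v` come from `φ(0)`.  `φ'(1)` does not contain `4` (`φ(1)` occurs also left), so it
contains `3`; then a `3` stands left of `F`, before the first `0`: contradiction to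
`FA 0 4`, `FA 4 3`.
`G1` keeps `B ∩ C`: `V01 ↔ V11`, `φ'` = without `4`, `φ'(1)`, `φ'(0)` not empty; as before
`φ'(0) = [0]`, and `φ'(1)` contains `1` (otherwise `3`, contradiction as before), so `φ(1) = [1]`
(its left occurrence is in the block `[1]`).  `v` from `V11`: `1` after the last `0`, contradiction
to `B`.  `v` from `V01`: the letters `4, 3, 3, 1` are between the first and the last `0`, that is in
`φ(3) φ(4) φ(3) φ(1)`; `4` comes from `φ(4)`, which is right of the main block in the block `[4]`: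
`φ(4) = [4]`; the letters `3` come from `φ(3)`, so one stands before `4`: contradiction to `FA 4 3`.
`V10 ∉ B`: `LA 1 0` fails. -/
def NcbStmt : Prop := ∀ β : FIC, Hc β → CB β ∨ CB (mir β)

/-- NCE. PROOF. Suppose not.  `CE` is `EF β 0` (with S2), so VEC gives `VX β`.  Letters `y = 0`,
`w = 3`, `x = 9` with two left places, `X = 7`, `z = 10`.
`V(L) = [9, 5, 9, 8, 7, 11] ++ L ++ [2, 10, 14]`; `V00`: `[0,10,3,3,7,9,0]`, `V01`:
`[0,3,10,3,7,9,0]`, `V10`: `[0,10,3,3,7,0,9]`, `V11`: `[0,3,10,3,7,0,9]`.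
`B`: `v.filter (≠ 10) = 9^b1 5 9^b2 8 7 11 K 2 14` with `K.Perm [0,0,3,3,7,9]`, `LA 3 7 K`,
`LA 7 0 K`, `LA 9 0 K` and `RR β [9,5,9,8,9] (9^b1 5 9^b2 8 9)`.
`C`: `v.filter (≠ 9) = 5 8 7 11 K 2 10 14` with `K.Perm [0,0,3,3,7,10]`, `FA 0 10 K`, `FA 10 3 K`.
`β` keeps `B`: SHA; project to `9` and the separators, use the identity of `B` (`8 := 8 11`) to come
to the word with one `9` at each place, XVB (no `9` in the block `[7]`, right of the main block, one
in the main block); RGA for `3, 7` and `0, 7`; `LA 9 0`: otherwise project to `9, 0, 5, 8` (S2):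
`9^b1 5 9^b2 8 9 0 0 ≈ 9^b1' 5 9^b2' 8 0 0 9`; with the two one letter identities of `B`
(substitute `8 := 8 0 0`) `9 5 9 8 9 0 0 ≈ 9 5 9 8 0 0 9`: `CE`.  `C`: RGD.
Instances as in NCB.  `G2` keeps `B` (exchange of `z = 10` and the first `w`; `φ'` = without `10`):
`F` contains a letter of `φ'(3)` twice; if `F` is in a left block then `φ'(3)`, `φ'(10)` are words in
`9` (the block `[7]` is too short), nothing changes; if `F` is in the main block: `φ'(3)`, `φ'(10)`
contain no `7` and no `9` (`φ(10)` occurs also right), so only `0, 3`, and all their letters occur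
again later: last occurrences unchanged.
`G3` keeps `C` (exchange of `x` and the last `y`; without `9`): a letter of `φ'(9)` occurs three times
in `v.filter (≠ 9)`: impossible, `φ'(9) = []`.
`G1` keeps `B ∩ C` (`φ'` = without `10`): letters of `φ'(9)` are `9`; if `F` is in a left block:
words in `9`, nothing changes.  `F` in the main block: `φ'(9) = [9]`, `φ'(0)` consists of `0, 3`.
If `0 ∉ φ'(0)` the conditions of `B` are kept.  If `0 ∈ φ'(0)`: all `0` of `v` come from `φ(0)`; `v`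
from `V11`: `9` after the last `0`, contradiction to `B`; `v` from `V01`: by `B` and `C`
`0 < 10 < 3 .. 3 < 7 < 0` in the main block; so `10, 3, 3, 7` are in `φ(3) φ(10) φ(3) φ(7) φ(9)`;
`10` comes from `φ(10)` and `7` from `φ(7)` (sides of the places), `φ(10) = [10]`, `φ(7) = [7]`
(place blocks); the `3` between them come from the second `φ(3)`; so a `3` stands before `10`:
contradiction.  `V10 ∉ B`: `LA 9 0` fails. -/
def NceStmt : Prop := ∀ β : FIC, Hc β → CE β

/-! ## Block D: gathering of local letters with three occurrences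

`U = Wm P Q (0 :: (γ ++ [0, 0]))` is FREE if it is equivalent to `Wm P Q (0 :: 0 :: 0 :: γ)`. -/

/-- GCN. It is enough to consider canonical words.
PROOF. Word `p y c y y q`, `|c| = n + 1` (shorter: `GF β n`).  (1) A letter `v` of `c` which occurs in
`p` and has a later occurrence: this occurrence in `c` is M, move it to the left out of `c` (S2), in
both words `p y c yy q` and `p yyy c q`; the rest is `GF β n`.  In the same way if `v` occurs in `q`
and has an earlier occurrence in `c` (or in `p`): move it to the right out of `c`.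
(2) `v ∉ p`, `v ∉ q`, `v` occurs `k ≥ 3` times in `c`: `c = c1 v c2`, `v ∉ c1`; by S2 the M letters
`v` move to the last `v`: `c1 v d1 v^(k-1) d2`; `GFK` (`|d1| ≤ n`): `≈ c1 v^k d1 d2`; `GFK` backwards
with the word `d1 d2 y y` (length `≤ n`): `p y c1 v^k d1 d2 y y q ≈ p y c1 v d1 d2 y y v^(k-1) q`; now
`GF β n` for `c1 v d1 d2` (length `≤ n - 1`): `≈ p yyy c1 v d1 d2 v^(k-1) q`, and back.
(3) Now the letters of `c` which occur once in `c` occur in exactly one of `p`, `q`; the other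
letters occur exactly twice in `c` and not in `p`, `q`.  INX with `D` = the list of the letters of
the first kind, `h 0 = [y]`, `h (27 + 3 j) =` the `j`-th local letter; `γ` = `c` renamed; then
multiply by `M` and substitute. -/
def GcnStmt : Prop := ∀ (β : FIC) (n : ℕ), Hc β → GF β n →
  (∀ P Q γ : List ℕ, Can P Q γ → γ.length ≤ n + 1 →
    RR β (Wm P Q (0 :: (γ ++ [0, 0]))) (Wm P Q (0 :: 0 :: 0 :: γ))) → GF β (n + 1)

/-- GRD. Every arrangement of a non free `γ` begins with an F-passive and ends with an L-passive.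
PROOF. Suppose `γ' = v :: γ''` and `v` is not an F-passive.  IRL: `U ≈ [y γ' yy]` (main blocks).
`v` an L-passive: `y v γ'' yy ≈ v y γ'' yy` (S2) `≈ v yyy γ''` (`GF β n`, `|γ''| ≤ n`)
`≈ yyy v γ''` (`CB` in the context `v` before).  `v` local: `y v ≈ v y` by FF, then `GF β n`, then
`v yyy γ'' ≈ yyy v γ''` (`v`, first `y` by FF, the other `y` by S2).  So `U` is free (IRL).
Suppose `γ' = γ'' ++ [v]`, `v` not an L-passive.  `v` an F-passive: `y γ'' v yy ≈ y γ'' yy v` (S2),
`≈ yyy γ'' v`.  `v` local: `v yy ≈ yy v` (first `y`: S2, last `y`: ZZ), `≈ yyy γ'' v`.  `γ' ≠ []` since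
`U` is free for `γ = []`. -/
def GrdStmt : Prop := ∀ (β : FIC) (n : ℕ) (P Q γ : List ℕ), NF β n P Q γ → ∀ γ' : List ℕ,
  γ'.Perm γ → RR β (Wm P Q γ) (Wm P Q γ') →
    (∃ e ∈ Q, ∃ l, γ' = (3 * e + 1) :: l) ∧ ∃ f ∈ P, ∃ l, γ' = l ++ [3 * f + 1]

/-- GFE. If `U` is equivalent to a word with `yyy` in the main block then `U` is free.
PROOF. Move `yyy` to the left over the letters `v` of `g1` (from right to left).  `v` an L-passive:
`v yyy ≈ yyy v` is `CB` with `v` before.  `v` an F-passive: project the hypothesis to `0`, `v` and the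
separator `2`: `y v yy t v ≈ v yyy t v`, so with S2 `yyy v t v ≈ v yyy t v`: substitute.  `v` local,
this is its first occurrence (the second one is later in `g1` or `g2`): `v` and the first `y` by FF,
the other `y` by S2; its second occurrence: the last `y` by ZZ, the others by S2.  Then
`Wm P Q (yyy g1 g2) ≈ Wm P Q (yyy γ)` by IRL. -/
def GfeStmt : Prop := ∀ (β : FIC) (P Q γ g1 g2 : List ℕ), Hc β → CB β → Can P Q γ →
  (g1 ++ g2).Perm γ → RR β (Wm P Q γ) (Wm P Q (g1 ++ g2)) →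
    RR β (Wm P Q (0 :: (γ ++ [0, 0]))) (Wm P Q (g1 ++ 0 :: 0 :: 0 :: g2)) →
      RR β (Wm P Q (0 :: (γ ++ [0, 0]))) (Wm P Q (0 :: 0 :: 0 :: γ))

/-- GHH. In every word equivalent to a non free `U` there are exactly three `y = 0`, in the main
block, and they enclose all other letters.
PROOF. SHA: `w' = Bw (lab P Q) B ++ e`, all letters except `0` have their blocks: without `0` it is
`Wm P Q δ` with `δ.Perm γ`, equivalent to `Wm P Q γ`; `e` consists of `0`.  `N` = number of `0`,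
`N ≥ 3` by `Iso2`.  Suppose that the conclusion fails; we show `U ≈ Wm P Q (g1 ++ 0 :: 0 :: 0 :: g2)`
with `g1 ++ g2 = δ`: contradiction by GFE.
* Not all `0` are in the main block: CTG (`c = 0`; place blocks have one other letter): `w'` is
equivalent to the word with the blocks `U r ++ 0^(b r) ++ V r`.  Project `U ≈ w'` to `0` and the
separators: `Bw` of (`000` in the block `0`) is equivalent to `Bw` of `0^(b r)` (and `e`); IRL
inserts `U r`, `V r`: so `w' ≈ Wm P Q (U 0 ++ 000 ++ V 0)`.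
* All `0` are in the main block and `N ≥ 4`: S2: the main block is `≈ h1 0 h2 0^(N-1) h3`;
`x³ ≈ x^N`, so (CPW) `0^(N-1) ≈ 0^m` with `m = N - 1 + j (N - 3)` large, central: `h1 0 0^m h2 h3`, and
`m + 1 = 3 + (j + 1) (N - 3)`: `0^(m+1) ≈ 000`.
* All `0` are in the main block, `N = 3` and they do not enclose: between the first and the last
`0` there are at most `n` letters of `δ`: S2 and `GF β n`: `h1 0 h2 0 h3 0 h4 ≈ h1 0 h2 h3 00 h4 ≈
h1 000 h2 h3 h4`. -/
def GhhStmt : Prop := ∀ (β : FIC) (n : ℕ) (P Q γ : List ℕ), NF β n P Q γ → ∀ w' : List ℕ,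
  RR β (Wm P Q (0 :: (γ ++ [0, 0]))) w' →
    ∃ γ', γ'.Perm (0 :: γ) ∧ w' = Wm P Q (0 :: (γ' ++ [0]))

/-- STB. PROOF. Labels `P' = P1 ++ a::b::f::P2`, `Q' = Q1 ++ e::z::Q2`; `γ = γ2 ++ [z_f]`.  SHA: all
letters except `0` keep their blocks.  Erase the letters `z_a, z_b, z_z` and the separators of these
places: `u` becomes a word equivalent to `U` (labels `P`, `Q`): GHH: three `0`, in the main block
(the erased labels `a, b` are before `f`, so no block is joined to the main block; `z` is after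
`e`), and all letters of `γ` are between them.  For `a` (and `b`): erase `z_f`, `z_b`, `z_z` and the
separators, rename `z_a` and its separator to `z_f` and the separator of `f`: again `U`: so `z_a` is
between two `0`.  (The `0` are known to be in the main block.) -/
def StbStmt : Prop := ∀ (β : FIC) (n : ℕ) (P1 P2 Q1 Q2 : List ℕ) (e f a b z : ℕ) (γ : List ℕ),
  GC β n P1 P2 Q1 Q2 e f a b z γ → ∀ u : List ℕ,
    RR β (Wm (P1 ++ a :: b :: f :: P2) (Q1 ++ e :: z :: Q2)
      ((3 * z + 1) :: 0 :: (γ ++ [3 * a + 1, 3 * b + 1, 0, 0]))) u →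
      ∃ K : List ℕ, K.Perm ((3 * z + 1) :: 0 :: (γ ++ [3 * a + 1, 3 * b + 1, 0, 0])) ∧
        u = Wm (P1 ++ a :: b :: f :: P2) (Q1 ++ e :: z :: Q2) K ∧
        ∀ i ∈ P1 ++ a :: b :: f :: P2, Btw 0 (3 * i + 1) K

/-- STC. PROOF. SHA for all letters except `3`.  Erase `z_a, z_b, z_z` and their separators and rename
`3` to `0`: `U`; GHH: exactly three `3`, in the main block, all letters of `γ` between them.  For
`z`: erase `z_e, z_a, z_b` and their separators, rename `z_z ↦ z_e` (`γ = z_e :: γ1`, main block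
`3 z_z γ1 3 3`): `U` again: `z_z` between two `3`.
`LA 3 z_a`: suppose the last `3` is after `z_a` in `K`.  Erase `z_z, z_b`: main block of the given
word `3 γ 3 3 z_a`, labels `P'' = P1 ++ a::f::P2`, `Q`.  `z_f < z_a` in `K` (ORD: two L-passives,
`S3` fails: with S2 it gives `IA`); so `z_a` is after the first `3` and the `3` enclose an
arrangement `η` of `γ, z_a`; by S2 `K ≈ 3 η 3 3`; without `3`: `Wm P'' Q (γ z_a) ≈ Wm P'' Q η`; IRL:
`3 η 33 ≈ 3 γ z_a 33`.  So `3 γ 33 z_a ≈ 3 γ z_a 33`.  Erase `z_f` and its separator, rename `a` to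
`f`, `3` to `0`: `0 γ2 00 z_f ≈ 0 γ2 z_f 00 = U`: contradiction to GHH. -/
def StcStmt : Prop := ∀ (β : FIC) (n : ℕ) (P1 P2 Q1 Q2 : List ℕ) (e f a b z : ℕ) (γ : List ℕ),
  GC β n P1 P2 Q1 Q2 e f a b z γ → ∀ u : List ℕ,
    RR β (Wm (P1 ++ a :: b :: f :: P2) (Q1 ++ e :: z :: Q2)
      (3 :: (3 * z + 1) :: (γ ++ [3, 3, 3 * a + 1, 3 * b + 1]))) u →
      ∃ K : List ℕ, K.Perm (3 :: (3 * z + 1) :: (γ ++ [3, 3, 3 * a + 1, 3 * b + 1])) ∧
        u = Wm (P1 ++ a :: b :: f :: P2) (Q1 ++ e :: z :: Q2) K ∧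
        (∀ i ∈ Q1 ++ e :: z :: Q2, Btw 3 (3 * i + 1) K) ∧ Btw 3 (3 * f + 1) K ∧
        LA 3 (3 * a + 1) K

/-- GPN. THE PENTAGON.  `V(L) = Wm (P1 ++ a::b::f::P2) (Q1 ++ e::z::Q2) L`, `y = 0`, `w = 3`:
`V00 : 3 :: z_z :: 0 :: (γ ++ [3,3,z_a,z_b,0,0])`, `V01 : 3 :: z_z :: 0 :: (γ ++ [z_a,3,3,z_b,0,0])`,
`V10 : 3 :: z_z :: 0 :: (γ ++ [3,3,z_a,0,0,z_b])`, `V11 : 3 :: z_z :: 0 :: (γ ++ [z_a,3,3,0,0,z_b])`.
PROOF. PEN (see block C) with `B = {v : v.filter (≠ 3) ≈ V00.filter (≠ 3)}`,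
`C = {v : v.filter (≠ 0) ≈ V00.filter (≠ 0)}`.
`G2` (exchange of `ww` and `z_a`) keeps `B`: `v = M φ(V) N`, `φ'` = `φ` without `3`; STB:
`v.filter (≠ 3) = Wm P' Q' K`.  If `φ'(3)` and `φ'(z_a)` are not empty: a letter `d` of `φ'(3)` occurs
three times in `F = φ'(main block)`, which has no separators (every letter of the main block occurs
at least twice in `V`) and is in one block (FAC): `d = 0`.  CNT (`κ i = 3 i + 1`, `S = P' ++ Q'`,
`g = 3`, `d = 0`, `k = 3`; all `z_i`, `i ∈ P'`, are between the `0` in `K`): `z_b` is between two `3`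
in the main block of `V`: false.
`G3` (exchange of `yy` and `z_b`) keeps `C`: `φ'` = without `0`, STC; `φ'(0)` not empty: `d = 3`; CNT
(part `Q`, `g = 0`, `d = 3`): `z_z` is between two `0` in the main block of `V`: false.
`G1` keeps `B ∩ C`: `φ'` = without `3`; `φ'(0)`, `φ'(z_b)` not empty: `d = 0`; CNT (`g = d = 0`): `z_b`
is between two `0` in the main block of `V`, so `V = V01`, and `z_f ∈ φ(z_f)`, `z_a ∈ φ(z_a)`.  Now
`v.filter (≠ 0) = Wm P' Q' K`, STC; SNG: `φ(z_f)` without `0` is `[z_f]`, `φ(z_a)` without `0` is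
`[z_a]`.  `z_f, z_a` are adjacent in the main block of `V01`, so also in `K`; but the last `3` is
between them in `K` (`Btw 3 z_f K`, `LA 3 z_a K`): contradiction.
`V10 ∉ B`: STB and uniqueness of `K` (UNI or list equality): `z_b` is not between two `0`. -/
def GpnStmt : Prop := ∀ (β : FIC) (n : ℕ) (P1 P2 Q1 Q2 : List ℕ) (e f a b z : ℕ) (γ : List ℕ),
  GC β n P1 P2 Q1 Q2 e f a b z γ → False

/-- GIN. PROOF. Induction on `n`: `GF β 0` is trivial.  Step: GCN; a canonical word which is not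
free: NF; GRD (`γ' = γ`) gives `e`, `f`; take new places `a`, `b`, `z`: GPN. -/
def GinStmt : Prop := ∀ β : FIC, Hc β → CB β → ∀ n, GF β n

/-! ## Block E: a letter with three occurrences and a local letter of degree 2 -/

/-- ECN. It is enough to consider canonical words.
PROOF. Word `p y c x y q`, `|c| = n + 1`.  `x ∈ c`: ZZ (`y .. x` in `c`).  `y ∈ c`: `c = c1 y c2`, `EF β n`
with `p y c1` and `c2`.  `x ∈ q` or `y ∈ q`: S2.  M letters of `c` which occur in `p` (in `q`) are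
moved to the left (right) out of `c`, in both words, as in GCN.  A letter `v` with `k ≥ 3`
occurrences in `c`, `v ∉ p`, `v ∉ q`.  If `GF` holds: `c = c1 v c2`, gather
`c1 v d1 v^(k-1) d2 ≈ c1 v^k d1 d2` (S2, GFK), and move `v^(k-1)` to the right over `d1 d2 x y` (GFK
backwards; the same with `y x`): `p y c1 v d1 d2 x y v^(k-1) q`, `EF β n`.  If `GFd` holds: the mirror
image, `v^(k-1)` moves to the left over `y` (`p v^(k-1) y c1 d1 v d2 x y q` with
`c ≈ c1 d1 v^k d2`).  Then INE (`D` = letters which occur once in `c`, `h 0 = [y]`,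
`h (27 + 3 j)` = local letters). -/
def EcnStmt : Prop := ∀ (β : FIC) (n : ℕ), Hc β → EF β n →
  ((∀ m, GF β m) ∨ ∀ m, GFd β m) →
  (∀ (s1 s2 : ℕ) (P1 P2 P3 Q α : List ℕ), ((P1 ++ s1 :: (P2 ++ s2 :: P3)) ++ Q).Nodup →
    Can (P1 ++ (P2 ++ P3)) Q α → α.length ≤ n + 1 →
      RR β (EW 9 s1 s2 P1 P2 P3 Q (0 :: (α ++ [9, 0])))
        (EW 9 s1 s2 P1 P2 P3 Q (0 :: (α ++ [0, 9])))) → EF β (n + 1)

/-- ERD. Every arrangement of a failing `α` begins with an F-passive and ends with an L-passive.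
Write `E0 = [y α x y]`, `E1 = [y α y x]` (main blocks).
PROOF. EIS: `E0 ≈ [y α' x y]`, `E1 ≈ [y α' y x]`.  `α' = v :: α''`: `v` an L-passive: `y v ≈ v y` (S2) in
both words, then `EF β n` for `α''`: `E0 ≈ E1`.  `v` local: `y v ≈ v y` by FF.  `α' = α'' ++ [v]`: `v` an
F-passive: `v` moves to the right over `x, y` (S2), `EF β n`.  `v` local, `α'' = a1 v a2`: `x` and the
last `v`: `EF β n` (`v a2 x v ≈ v a2 v x`), `y` and the last `v`: ZZ; so
`E0 ≈ [y α'' x y v] ≈ [y α'' y x v]` (`EF β n`) `≈ [y α'' y v x]` (`EF β n` with `c = a2 y`, length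
`≤ n`) `≈ [y α'' v y x] ≈ E1`.  `α ≠ []`: for `α = []` it is `EF β 0`. -/
def ErdStmt : Prop := ∀ (β : FIC) (n x y s1 s2 : ℕ) (P1 P2 P3 Q α : List ℕ),
  EC β n x y s1 s2 P1 P2 P3 Q α → ∀ α' : List ℕ, α'.Perm α →
    RR β (Wm (P1 ++ (P2 ++ P3)) Q α) (Wm (P1 ++ (P2 ++ P3)) Q α') →
      (∃ e ∈ Q, ∃ l, α' = (3 * e + 1) :: l) ∧
        ∃ f ∈ P1 ++ (P2 ++ P3), ∃ l, α' = l ++ [3 * f + 1]

/-- EFA. PROOF. SHA, XVB: one `x` in `B 0`, no `x` in the blocks after the one of `s2` and in `e`; the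
other letters keep their blocks.  `B 0` without `x`: `y` twice and an arrangement `α'` of `α`, with
`Wm .. α ≈ Wm .. α'`; ERD: `α' = z_e .. z_f`; first `y < z_e` (RGD for `y`, `z_e`) and `z_f <` last `y`
(RGA), so it is `y α' y`.  Suppose that `x` is after the last `y`: `B 0 = y α' y x`.  CTG with `c = x`:
all `x` contiguous in their blocks; project to `x` and the separators and insert (IRL): the word is
equivalent to `EW .. (y α' y x)` (the `x` are at `s1`, `s2` again), and this is `≈ E1` (EIS).  So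
`E0 ≈ E1`: contradiction to `nr`. -/
def EfaStmt : Prop := ∀ (β : FIC) (n x y s1 s2 : ℕ) (P1 P2 P3 Q α : List ℕ),
  EC β n x y s1 s2 P1 P2 P3 Q α → ∀ (B : ℕ → List ℕ) (e : List ℕ),
    (∀ r ∈ lab (P1 ++ s1 :: (P2 ++ s2 :: P3)) Q, SFr (B r)) → SFr e →
    RR β (EW x s1 s2 P1 P2 P3 Q (y :: (α ++ [x, y])))
      (Bw (lab (P1 ++ s1 :: (P2 ++ s2 :: P3)) Q) B ++ e) → LA x y (B 0)

/-- EFB. PROOF. As EFA: `B 0` without `x` is `y α' y`.  Suppose that `x` is before the last `y` in
`B 0 = K`.  CTG, IRL: `E1 ≈ EW .. K`.  Now move `x` in `K` to the right to the last `y` (over the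
letters of `α'` and perhaps the first `y`): over first occurrences: S2 (`x` before); over the last
occurrence of a local letter `v`: `EF β n` (`v c x v ≈ v c v x`, `|c| ≤ n`, two `x` at the places `s1`,
`s2`); over an L-passive `v`: in `E1` it is before `x` and in `K` after `x`; project `E1 ≈ EW .. K` to
`x`, `v` and the separators: `[v x] ≈ [x v]` (main blocks) with the same places, insert all other
letters (IRL).  So `E1 ≈ EW .. (y α' x y) ≈ E0`: contradiction. -/
def EfbStmt : Prop := ∀ (β : FIC) (n x y s1 s2 : ℕ) (P1 P2 P3 Q α : List ℕ),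
  EC β n x y s1 s2 P1 P2 P3 Q α → ∀ (B : ℕ → List ℕ) (e : List ℕ),
    (∀ r ∈ lab (P1 ++ s1 :: (P2 ++ s2 :: P3)) Q, SFr (B r)) → SFr e →
    RR β (EW x s1 s2 P1 P2 P3 Q (y :: (α ++ [y, x])))
      (Bw (lab (P1 ++ s1 :: (P2 ++ s2 :: P3)) Q) B ++ e) → LA y x (B 0)

/-- HPR. The order of a letter `c` with three occurrences and an L-passive `d` with its place after
the second `c` is kept.
PROOF. XVB for `c`.  Suppose the orders are different, say `c d` in `B m` and `d c` in `B' m`.  Project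
to `c`, `d` and the separators `t1, t2, ts` of `r1, r2, s`: `c t1 c t2 d ts c d ≈ c^b1 t1 c^b2 t2 d ts d c`
(no `c` between `t2` and the block `m`).  Erase `d`, `ts`: `c t1 c t2 c ≈ c^b1 t1 c^b2 t2 c`; substitute
`t2 := t2 d ts d`: the right side is `≈ c t1 c t2 d ts d c`.  So `c t1 c t2 d ts c d ≈
c t1 c t2 d ts d c`; substitute `c := x`, `d := y`, `t1 := p2`, `t2 := p3`, `ts := c'`: `EF β n` for all
`n` (words `p1 x p2 x p3 y c' x y q`): contradiction. -/
def HprStmt : Prop := ∀ β : FIC, VX β → (¬ ∀ n, EF β n) → ∀ (R1 R2 R3 R4 : List ℕ)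
  (r1 r2 m s : ℕ) (B B' : ℕ → List ℕ) (e : List ℕ) (c d : ℕ),
    (R1 ++ r1 :: (R2 ++ r2 :: (R3 ++ m :: R4))).Nodup → s ∈ R3 →
    (∀ r ∈ R1 ++ r1 :: (R2 ++ r2 :: (R3 ++ m :: R4)), SFr (B r)) →
    (∀ r ∈ R1 ++ r1 :: (R2 ++ r2 :: (R3 ++ m :: R4)), SFr (B' r)) → SFr e → c % 3 ≠ 2 →
    d % 3 ≠ 2 → c ≠ d →
    (∀ q ∈ R1 ++ r1 :: (R2 ++ r2 :: (R3 ++ m :: R4)),
      (B q).count c = if q = r1 ∨ q = r2 ∨ q = m then 1 else 0) →
    (∀ q ∈ R1 ++ r1 :: (R2 ++ r2 :: (R3 ++ m :: R4)),
      (B q).count d = if q = s ∨ q = m then 1 else 0) →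
    (∀ q ∈ R1 ++ r1 :: (R2 ++ r2 :: (R3 ++ m :: R4)),
      (B' q).count d = if q = s ∨ q = m then 1 else 0) → e.count d = 0 →
    RR β (Bw (R1 ++ r1 :: (R2 ++ r2 :: (R3 ++ m :: R4))) B)
      (Bw (R1 ++ r1 :: (R2 ++ r2 :: (R3 ++ m :: R4))) B' ++ e) →
        (Bfr (B m) c d ↔ Bfr (B' m) c d)

/-- ERN. Renaming.
PROOF. Substitute `x' ↦ x`, `y' ↦ y`, separators of `r1`, `r2` ↦ separators of `s1`, `s2`, all other
letters of the words are fixed (the letters of `α` are `3 i + 1` or `≥ 27`). -/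
def ErnStmt : Prop := ∀ (β : FIC) (n x y s1 s2 x' y' r1 r2 : ℕ) (P1 P2 P3 Q α : List ℕ),
  EC β n x y s1 s2 P1 P2 P3 Q α → x' % 3 = 0 → x' < 27 → y' % 3 = 0 → y' < 27 → x' ≠ y' →
    ((P1 ++ r1 :: (P2 ++ r2 :: P3)) ++ Q).Nodup → EC β n x' y' r1 r2 P1 P2 P3 Q α

/-- ESB. States of `B`.  Main block of the given word (without `12`):
`[6,3,z_z,0] ++ α ++ [3,6,z_h,9,0]`; `9` at the places `s1`, `s2`; the blocks of `r1`, `r2` are empty.
PROOF. SHA; XVB for `9` (`r1 := s1 + 1`, `R2 := ` labels of `r1, P2`, `r2 := s2 + 1`,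
`R3 :=` labels of `r2, P3, h`, `m := 0`).  Order of the main block `B 0`:
(1) `9 <` last `0`: erase `3, 6, z_h, z_z` and the separators of `r1, r2, h, z`: a word equivalent to
`E0`; its main block is `(B 0)` filtered (the blocks of `r2`, `h` are then empty): EFA.
(2) `z_h < 9`: HPR (`c = 9`, `d = z_h`, `s = h + 1`; EC: `¬ ∀ n, EF β n` since `nr`).
(3) last `6 < z_h`, last `3 < z_h`, `z_h <` last `0`: RGA.  (4) The restriction `α'` of `B 0` to the
letters of `α`: ERD: begins with an F-passive `z_e'` and ends with an L-passive `z_f'`; `z_f' <` last `3`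
(RGA); first `0 < z_e'` (RGD); `z_z <` first `0` (RGD).  So all letters except `9` and the last `0` are
at or before `z_h`: `B 0 = A ++ [z_h, 9, 0]`.  (5) All L-passives are between the first and the last
`0`. -/
def EsbStmt : Prop := ∀ (β : FIC) (n s1 s2 r1 r2 h z : ℕ) (P1 P2 P3 Q α : List ℕ),
  EC β n 9 0 s1 s2 P1 P2 P3 Q α →
    ((P1 ++ s1 :: r1 :: (P2 ++ s2 :: r2 :: (P3 ++ [h]))) ++ (Q ++ [z])).Nodup →
    ∀ u : List ℕ, RR β ((EV s1 s2 r1 r2 h z P1 P2 P3 Q
      (6 :: 3 :: (3 * z + 1) :: 0 :: (α ++ [3, 12, 6, 3 * h + 1, 9, 0]))).filter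
        (fun a => decide (a ≠ 12))) u →
      ∃ B : ℕ → List ℕ, (∀ r, SFr (B r)) ∧
        u = Bw (lab (P1 ++ s1 :: r1 :: (P2 ++ s2 :: r2 :: (P3 ++ [h]))) (Q ++ [z])) B ∧
        (∀ i ∈ P1 ++ (P2 ++ (P3 ++ h :: (Q ++ [z]))), (B 0).count (3 * i + 1) = 1 ∧
          (B (i + 1)).count (3 * i + 1) = 1 ∧ u.count (3 * i + 1) = 2) ∧
        (∀ r ∈ lab (P1 ++ s1 :: r1 :: (P2 ++ s2 :: r2 :: (P3 ++ [h]))) (Q ++ [z]), r ≠ 0 →
          ∀ a ∈ B r, a = 9 ∨ a = 3 * (r - 1) + 1) ∧
        (B 0).count 9 = 1 ∧ (∀ i ∈ Q ++ [z], B (i + 1) = [3 * i + 1]) ∧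
        (∀ a ∈ B 0, a ≠ 9 → (∃ i ∈ P1 ++ (P2 ++ (P3 ++ h :: (Q ++ [z]))), a = 3 * i + 1) ∨
          ((B 0).count a = 2 ∧ u.count a = 2)) ∧
        (∃ A, B 0 = A ++ [3 * h + 1, 9, 0]) ∧
        ∀ i ∈ P1 ++ (P2 ++ (P3 ++ [h])), Btw 0 (3 * i + 1) (B 0)

/-- ESC. States of `C`.  Main block of the given word (without `9`):
`[6,3,z_z,0] ++ α ++ [3,12,6,z_h,0]`; `12` at the places `r1`, `r2`; the blocks of `s1`, `s2` are empty.
PROOF. SHA; XVB for `12`.  (1) last `3 < 12`: erase everything except `α`, `3`, `12`: a word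
equivalent to `E1` for `x = 12`, `y = 3`, places `r1`, `r2` (ERN): EFB.  (2) `12 <` last `6`: erase
everything except `α`, `6`, `12`: `E0` for `x = 12`, `y = 6`: EFA.  (3) last `6 < z_h`, `z_h <` last `0`,
every L-passive of `α` `<` last `3`: RGA.  (4) The restriction `α'` of `B 0` to the letters of `α`: ERD;
its last letter is `z_f` (the last letter of `α`): an L-passive, and the order of L-passives is kept
(ORD; `S3` fails, with S2 it gives `IA`); it begins with an F-passive; first `6 < z_z`, first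
`3 < z_z`, `z_z <` first `0`, first `0 < z_e'`: RGD.  So `B 0 = A ++ [z_f, 3, 12, 6, z_h, 0]`, and the
F-passives are between the `3` and between the `6`. -/
def EscStmt : Prop := ∀ (β : FIC) (n s1 s2 r1 r2 h z : ℕ) (P1 P2 P3 Q α : List ℕ),
  EC β n 9 0 s1 s2 P1 P2 P3 Q α →
    ((P1 ++ s1 :: r1 :: (P2 ++ s2 :: r2 :: (P3 ++ [h]))) ++ (Q ++ [z])).Nodup →
    ∀ f : ℕ, (∃ l, α = l ++ [3 * f + 1]) →
    ∀ u : List ℕ, RR β ((EV s1 s2 r1 r2 h z P1 P2 P3 Q
      (6 :: 3 :: (3 * z + 1) :: 0 :: (α ++ [3, 12, 6, 3 * h + 1, 9, 0]))).filter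
        (fun a => decide (a ≠ 9))) u →
      ∃ B : ℕ → List ℕ, (∀ r, SFr (B r)) ∧
        u = Bw (lab (P1 ++ s1 :: r1 :: (P2 ++ s2 :: r2 :: (P3 ++ [h]))) (Q ++ [z])) B ∧
        (∀ i ∈ P1 ++ (P2 ++ (P3 ++ h :: (Q ++ [z]))), (B 0).count (3 * i + 1) = 1 ∧
          (B (i + 1)).count (3 * i + 1) = 1 ∧ u.count (3 * i + 1) = 2) ∧
        (∀ r ∈ lab (P1 ++ s1 :: r1 :: (P2 ++ s2 :: r2 :: (P3 ++ [h]))) (Q ++ [z]), r ≠ 0 →
          ∀ a ∈ B r, a = 12 ∨ a = 3 * (r - 1) + 1) ∧
        (B 0).count 12 = 1 ∧ (∀ i ∈ Q ++ [z], B (i + 1) = [3 * i + 1]) ∧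
        (∀ a ∈ B 0, a ≠ 12 → (∃ i ∈ P1 ++ (P2 ++ (P3 ++ h :: (Q ++ [z]))), a = 3 * i + 1) ∨
          ((B 0).count a = 2 ∧ u.count a = 2)) ∧
        (∃ A, B 0 = A ++ [3 * f + 1, 3, 12, 6, 3 * h + 1, 0]) ∧
        ∀ i ∈ Q ++ [z], Btw 3 (3 * i + 1) (B 0) ∧ Btw 6 (3 * i + 1) (B 0)

/-- EPN. THE PENTAGON.  ERD (`α' = α`) gives `α = l ++ [z_f]`; take new places `r1, r2, h, z`.
`V(L) = EV s1 s2 r1 r2 h z P1 P2 P3 Q L`, `V00 : [6,3,z_z,0] ++ α ++ [3,12,6,z_h,9,0]`,
`V01 : .. [12,3,6,z_h,9,0]`, `V10 : .. [3,12,6,z_h,0,9]`, `V11 : .. [12,3,6,z_h,0,9]`.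
PROOF. PEN (see block C) with `B = {v : v.filter (≠ 12) ≈ V00.filter (≠ 12)}`,
`C = {v : v.filter (≠ 9) ≈ V00.filter (≠ 9)}`.  `S = P1 ++ (P2 ++ (P3 ++ h :: (Q ++ [z])))`.
Common part: `v = M φ(V) N`, `φ'` = `φ` without the letter `x1 = 12` (for `B`), `F = φ'(main block)` has
no separators, it is in one block of `v.filter (≠ 12) = Bw lab B` (ESB, FAC).  The letters of
`φ'(12)` and of `φ'(9)` occur at least three times (places!): they are `9`.  If `F` is in a block
`r ≠ 0`: a letter which occurs twice in `F` is `9`, so the images of the local letters and of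
`9, 12` are words in `9`: the exchange changes nothing.  If `F` is in the block `0`: `φ'(12)`, `φ'(9)`
are `[]` or `[9]`, the images of local letters consist of letters of degree 2, which occur in no
other image.
`G2` (exchange of `3` and `12`) keeps `B`: `φ'(12) = [9]`, `φ'(3) ≠ []`.  `V00`, `V10`: the letter before
`9` in `B 0` is the last letter of `φ'(3)`, but it is `z_h`, which occurs once in `B 0`:
contradiction.  `V01`, `V11`: the letters after `9` in `B 0` are `[0]`: `φ'(3) = [0]`; CNT (`g = 3`,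
`d = 0`, `k = 2`, part `P`): `z_h` is between two `3` in the main block of `V`: false.
`G3` (exchange of `9` and the last `0`) keeps `C` (`φ'` = without `9`, ESC; the letter `12` plays the
role of `9`): `φ'(9) = [12]`, `φ'(0) ≠ []`, `B 0` ends with `z_f,3,12,6,z_h,0`.  `V00`, `V01`: the first
letter of `φ'(0)` is `6`, and `z_h` occurs once in `B 0`: `φ'(0) = [6]`; CNT (`g = 0`, `d = 6`, part
`Q`): `z_z` is between two `0` in the main block of `V`: false.  `V10`, `V11`: the last letter of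
`φ'(0)` is `3`, `φ'(0) = [3]`; CNT (`g = 0`, `d = 3`, part `Q`): false.
`G1` keeps `B ∩ C` (`φ'` = without `12`, ESB): `φ'(9) = [9]`, `φ'(0) ≠ []`.  `V11`: the letter before `9`
is the last letter of `φ'(0)` but it is `z_h`: contradiction.  `V01`: `φ'(0) = [0]`, CNT (`g = d = 0`,
`k = 2`, part `P`): `z_f ∈ φ(z_f)`, `z_h ∈ φ(z_h)`.  Now ESC for `v.filter (≠ 9)` (block function `B`):
SNG: the letters of `φ(z_f)` and `φ(z_h)` without `9` are in the place blocks: no `3`, no `6`.  The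
part `3, 12, 6` between `z_f` and `z_h` in `B 0`: in `V01` the letters `12, 3, 6` are between `z_f` and
`z_h`; the letters of `φ(12)` occur at least three times: only `12` (and `9`); so `3` and `6` come
from `φ(3)` or `φ(6)`, and `12`, which stands between them, too (`φ(12)` is before `φ(3)`); but then
`12` occurs twice in `B 0`: contradiction.
`V10 ∉ B`: erase `3, 6, z_h, z_z` and the separators of `r1, r2, h, z` in `V00 ≈ V10` (without `12`):
`E0 ≈ E1`, contradiction to `nr` (or: ESB and uniqueness of `B`). -/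
def EpnStmt : Prop := ∀ (β : FIC) (n s1 s2 : ℕ) (P1 P2 P3 Q α : List ℕ),
  EC β n 9 0 s1 s2 P1 P2 P3 Q α → False

/-- EIN. PROOF. VEC: either done or `VX β`.  Induction: `EF β 0`: `p = p1 x p2 x p3`, `CE` and S2:
`x t x s y x y ≈ x t x s x y y ≈ x t x s y y x`, substitute.  Step: ECN; a canonical word for which it
fails gives EC: EPN. -/
def EinStmt : Prop := ∀ β : FIC, Hc β → CE β → ((∀ m, GF β m) ∨ ∀ m, GFd β m) → ∀ n, EF β n

/-! ## Block F: end -/

/-- TRE. PROOF. `w = p ++ (c ++ x :: y :: q)`, `c = c1 y c2`.  `x = y`: trivial.  `x ∈ c2`: ZZ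
(`y .. x` in a common factor of multiple letters).  Otherwise `x` occurs at least twice in `p ++ c1`
(`x ∉ q`): `EF` with `p ++ c1` and `c2`. -/
def TreStmt : Prop := ∀ β : FIC, ZZ β → (∀ n, EF β n) → E32 β

/-- TRG. PROOF. `x = y`: trivial.  `c = c1 y c2`, `y ∉ c1`; let `k ≥ 3` be the number of `y`, `d` = `c2`
without `y`.  S2 (the M letters `y` move to the last `y`, over multiple letters) and GFK:
`p c1 y c2 x y q ≈ p c1 y d x y^(k-1) q ≈ p c1 y^k d x q` and
`p c1 y c2 y x q ≈ p c1 y d y^(k-1) x q ≈ p c1 y^k d x q`. -/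
def TrgStmt : Prop := ∀ β : FIC, S2 β → (∀ n, GF β n) → E23 β

/-- LCN. THE NECESSITY OF THE LOCAL CONDITION.
PROOF. Suppose that `IA`, `IAd` fail: `Hc β`, `Hc (mir β)` (MRL).  NCB: `CB β` (then GIN: all `GF β n`)
or `CB (mir β)` (then GIN for `mir β`: all `GFd β n`).  NCE, EIN for `β` and for `mir β`; TRE:
`E32 β` and `E32 (mir β)`, that is `E32d β`.  TRG: `E23 β` or `E23 (mir β)`, that is `E23d β`.  In the
second case `LC3 β`, in the first case `LC3 (mir β)` (MRL). -/
def LcnStmt : Prop := ∀ β : FIC, ModF β → Iso2 β → Iso3 β → Cc β →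
  IA β ∨ IAd β ∨ LC3 β ∨ LC3 (mir β)

end Pool.Agent.MVD
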