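import Pool.Agent.MVD.Defs

/-!
# Necessity of the class division (statements of the rows of squad MVD)

Problem MP_23468a_al.  GOAL (`AsmStmt`): if `x^2` and `xyx` are isoterms for `β` and `ModF β`, then
`β` contains `S1, S2, R0` or `S2, S3, R0` or `S2, FF, ZZ` or `F1L, FF, ZZ` or `F1R, FF, ZZ`.

In the docstrings: V-equivalent = congruent modulo `β`; `t` = separator (letters `≡ 2 (mod 3)`);
`z_e = 3 e + 1`; `x = 0`, `y = 3` (or a multiple of `3`).  Every docstring contains the proof.
All rows can be started at once; hypotheses = the rows in the column uses, in this order.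
-/

namespace Pool.Agent.MVD

open Pool.Agent.Helper14_MV Pool.Agent.Helper2_MV

/-! ## Block A: words -/

/-- LIN. A word in which every letter occurs once is an isoterm.
PROOF. `RR.content` (Helper2_MV.Keep): same content.  For `c` in `l` the projection to `c` is `[c]`;
`[c]` is an isoterm (from `iso_ab` with another letter, or from `iso_aba`), so `c` occurs once in
`l'`: `l'.Nodup`.  Two letters `a` before `b` in `l`: the projection of `l` to `{a, b}` is `[a, b]`,
so by `iso_ab` the projection of `l'` is `[a, b]`: same order.  Then `eq_of_idx`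
(Helper2_MV.Order) or induction. -/
def LinStmt : Prop := ∀ β : FIC, Iso3 β → ∀ l l' : List ℕ, l.Nodup → RR β l l' → l' = l

/-- DEC. Decomposition into blocks.
PROOF. Project to the letters `c` with `c % 3 = 2`: the projection of `Bw R B` is
`R.map (fun r => 3 r + 2)`, a word without repetitions, so by LIN the projection of `w'` is the same
list.  By induction on `R` (`List.filter_eq_cons_iff`) `w' = B'(r1) t1 B'(r2) t2 … e`. -/
def DecStmt : Prop := ∀ β : FIC, Iso3 β → ∀ (R : List ℕ) (B : ℕ → List ℕ) (w' : List ℕ), R.Nodup →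
  (∀ r ∈ R, SFr (B r)) → RR β (Bw R B) w' →
    ∃ (B' : ℕ → List ℕ) (e : List ℕ), (∀ r, SFr (B' r)) ∧ SFr e ∧ w' = Bw R B' ++ e

/-- KP2. A letter which occurs twice, in two different blocks, keeps its blocks.
PROOF. Let `r` be before `s` in `R`.  The letter `c` occurs twice in `w' = Bw R B' ++ e` (projection
to `c`: `[c, c]` is an isoterm by `Iso2`).  For a separator `t = 3 q + 2`, `q ∈ R`, project to
`{c, t}`: if `q = r` or `q` is between `r` and `s` in `R` (not `q = s`), the projection of `Bw R B`
is `[c, t, c]`, so the same for `w'` (`iso_aba`): exactly one `c` of `w'` stands before `t`.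
Otherwise it is `[c, c, t]` or `[t, c, c]`, and the projection of `w'` is not `[c, t, c]` (again
`iso_aba`, symmetric): `0` or `2` letters `c` of `w'` before `t`.  The number of letters `c` of `w'`
before `t` is monotone in the position of `t`; for `t` of `r` it is `1`.  So it is `0` for the `t`
before `t_r`, `1` for `t_r` and up to the `t` before `t_s`, `2` from `t_s` on.  Hence `c` is once in
`B' r`, once in `B' s`, not in the other blocks and not in `e`. -/
def Kp2Stmt : Prop := ∀ β : FIC, Iso2 β → Iso3 β → ∀ (R : List ℕ) (B B' : ℕ → List ℕ) (e : List ℕ),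
  R.Nodup → (∀ r ∈ R, SFr (B r)) → (∀ r ∈ R, SFr (B' r)) → SFr e →
    RR β (Bw R B) (Bw R B' ++ e) → ∀ (c r s : ℕ), c % 3 ≠ 2 → r ∈ R → s ∈ R → r ≠ s →
      (∀ q ∈ R, (B q).count c = if q = r ∨ q = s then 1 else 0) →
        (∀ q ∈ R, (B' q).count c = if q = r ∨ q = s then 1 else 0) ∧ e.count c = 0

/-- KPL. A letter which occurs twice in one block stays in one block (perhaps another one, then
`x² t ≈ t x²` is in `β`).
PROOF. As KP2: no separator stands between the two letters `c` of `w'` (otherwise `iso_aba` gives a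
separator between the letters `c` of `w`).  If the block is another one, choose the separator `t`
between: the projections to `{c, t}` are `[c, c, t]` and `[t, c, c]` (or exchanged), and renaming
gives `SQ`. -/
def KplStmt : Prop := ∀ β : FIC, Iso2 β → Iso3 β → ∀ (R : List ℕ) (B B' : ℕ → List ℕ) (e : List ℕ),
  R.Nodup → (∀ r ∈ R, SFr (B r)) → (∀ r ∈ R, SFr (B' r)) → SFr e →
    RR β (Bw R B) (Bw R B' ++ e) → ∀ (c r : ℕ), c % 3 ≠ 2 → r ∈ R →
      (∀ q ∈ R, (B q).count c = if q = r then 2 else 0) →
        ((∃ s ∈ R, (∀ q ∈ R, (B' q).count c = if q = s then 2 else 0) ∧ (s = r ∨ SQ β)) ∧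
            e.count c = 0) ∨
          ((∀ q ∈ R, (B' q).count c = 0) ∧ e.count c = 2 ∧ SQ β)

/-- UNI. The blocks are determined by the word.
PROOF. Induction on `R`: the first separator is the first letter `≡ 2 (mod 3)`; the separators
`3 r + 2` are different for different `r`. (The list `R` is given on both sides.) -/
def UniStmt : Prop := ∀ (R : List ℕ) (B B' : ℕ → List ℕ) (e e' : List ℕ), R.Nodup →
  (∀ r ∈ R, SFr (B r)) → (∀ r ∈ R, SFr (B' r)) → SFr e → SFr e' →
    Bw R B ++ e = Bw R B' ++ e' → (∀ r ∈ R, B r = B' r) ∧ e = e'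

/-- FAC. A nonempty factor without separators lies in one block.
PROOF. Induction on `R = r :: R'`: `B r ++ [t_r] ++ Bw R' B = A ++ F ++ C`.  If `A` does not contain
`t_r`, then (`F` has no separator, `F` nonempty, the first separator of the word is at the end of
`B r`) `A ++ F` is a prefix of `B r`; otherwise `A = B r ++ [t_r] ++ A'`. -/
def FacStmt : Prop := ∀ (R : List ℕ) (B : ℕ → List ℕ) (A F C : List ℕ), (∀ r ∈ R, SFr (B r)) →
  SFr F → F ≠ [] → Bw R B = A ++ (F ++ C) →
    ∃ (R1 : List ℕ) (r : ℕ) (R2 a c : List ℕ), R = R1 ++ r :: R2 ∧ B r = a ++ (F ++ c) ∧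
      A = Bw R1 B ++ a ∧ C = c ++ (3 * r + 2) :: Bw R2 B

/-- CTX. The identities `S1`, `S2`, `S3` in all contexts.
PROOF. `S1`: `q = q1 u q2`, both letters occur in `q`: `q = q1 u q2 v q3` (or `v` first, or `u = v`
trivial): substitute `x := u`, `y := v`, `t := q1`, `s := q2` in `xy t x s y ≈ yx t x s y` and
multiply by `p` and `q3` (if `v` comes first, exchange the roles of `x` and `y`).  `S2`: `p = p1 u
p2`, `q = q1 v q2`: `x := u`, `t := p2`, `y := v`, `s := q1`.  `S3`: as `S1`. -/
def CtxStmt : Prop := ∀ β : FIC,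
  (S1 β → ∀ (p q : List ℕ) (u v : ℕ), u ∈ q → v ∈ q →
    RR β (p ++ u :: v :: q) (p ++ v :: u :: q)) ∧
  (S2 β → ∀ (p q : List ℕ) (u v : ℕ), u ∈ p → v ∈ q →
    RR β (p ++ u :: v :: q) (p ++ v :: u :: q)) ∧
  (S3 β → ∀ (p q : List ℕ) (u v : ℕ), u ∈ p → v ∈ p →
    RR β (p ++ u :: v :: q) (p ++ v :: u :: q))

/-- CTY. The identities `A1`, `A2`, `B2`, `B3`, `SQ` in all contexts.
PROOF. Substitutions as in CTX. -/
def CtyStmt : Prop := ∀ β : FIC,
  (A1 β → ∀ (p q : List ℕ) (x y : ℕ), x ∈ q →
    RR β (p ++ y :: x :: y :: q) (p ++ x :: y :: y :: q)) ∧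
  (A2 β → ∀ (p q : List ℕ) (x y : ℕ), x ∈ q →
    RR β (p ++ y :: x :: y :: q) (p ++ y :: y :: x :: q)) ∧
  (B2 β → ∀ (p q : List ℕ) (x y : ℕ), x ∈ p →
    RR β (p ++ y :: x :: y :: q) (p ++ x :: y :: y :: q)) ∧
  (B3 β → ∀ (p q : List ℕ) (x y : ℕ), x ∈ p →
    RR β (p ++ y :: x :: y :: q) (p ++ y :: y :: x :: q)) ∧
  (SQ β → ∀ (p u q : List ℕ) (y : ℕ), RR β (p ++ y :: y :: (u ++ q)) (p ++ (u ++ y :: y :: q)))

/-- TRC. Two arrangements which differ only in the order of independent pairs are connected by
exchanges of adjacent independent letters.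
PROOF. Induction on the length of `h'` (for all `h`; generalize over a left context: prove the
statement for `E (P ++ h) (P ++ h')`).  `h' = a :: h''`, `h = u ++ a :: v`; every `b` in `u` is
before `a` in `h` and after `a` in `h'`, so `I b a`: move `a` to the front by exchanges; then the
tails `u ++ v` and `h''` satisfy the hypothesis. -/
def TrcStmt : Prop := ∀ (I : ℕ → ℕ → Prop) (E : List ℕ → List ℕ → Prop) (h h' : List ℕ),
  (∀ a, E a a) → (∀ a b c, E a b → E b c → E a c) →
    (∀ (A C : List ℕ) (u v : ℕ), (A ++ u :: v :: C).Perm h → I u v →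
      E (A ++ u :: v :: C) (A ++ v :: u :: C)) →
    h.Nodup → h'.Perm h → (∀ u v, Bfr h u v → Bfr h' v u → I u v) → E h h'

/-- INW. Every word `p L q` is a substitution instance of a word with isolated places.
PROOF. First the skeleton lemma: if `S` is a list without repetitions of letters of `p`, then
`p = g0 ++ P.flatMap (fun a => a :: g a)` for an arrangement `P` of `S` (induction on `p`).  Apply
it to `p` and the letters of `D` which occur in `p` and to `q` and the other letters of `D`.  Then
`M = g0`, `z_e ↦ D[e]`, the separator after the place of `z_e` (left of the main block) ↦ `g a`,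
the separator `2` of the main block ↦ first piece of `q`, the separator after the place of `z_e`
right of the main block ↦ the piece of `q` after this occurrence. -/
def InwStmt : Prop := ∀ (p q D : List ℕ) (y : ℕ), D.Nodup → (∀ a ∈ D, a ∈ p ∨ a ∈ q) →
  ∃ (P Q : List ℕ) (g : ℕ → List ℕ) (M : List ℕ), (P ++ Q).Perm (List.range D.length) ∧
    (∀ L : List ℕ, p ++ (L.flatMap g ++ q) = M ++ (Wm P Q L).flatMap g) ∧ g 0 = [y] ∧
      ∀ e (he : e < D.length), g (3 * e + 1) = [D[e]]

/-- INS. The same for words `p X q L r` with two blocks.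
PROOF. As INW: the letters of `D` which occur in `p` are taken there, the other letters which occur
in `q` are taken in `q`, the others in `r`; `R` = labels of the places in `p`, `0`, labels of the
places in `q`, `1`, labels of the places in `r`. -/
def InsStmt : Prop := ∀ (p q r D : List ℕ) (x y : ℕ), D.Nodup → x ≠ y →
  (∀ a ∈ D, a ∈ p ∨ a ∈ q ∨ a ∈ r) →
  ∃ (R : List ℕ) (g : ℕ → List ℕ) (M : List ℕ), R.Perm (List.range (D.length + 2)) ∧ Bfr R 0 1 ∧
    (∀ X L : List ℕ, p ++ (X.flatMap g ++ (q ++ (L.flatMap g ++ r))) =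
      M ++ (Eg R X L).flatMap g) ∧ g 0 = [x] ∧ g 3 = [y] ∧
    (∀ e (he : e < D.length), g (3 * e + 1) = [D[e]]) ∧
    ∀ e (he : e < D.length), Bfr R (e + 2) 1 ↔ (D[e] ∈ p ∨ D[e] ∈ q)

/-- MIR. The mirror image `mir β = FIC.op β` (Helper14_MV.B2), the reversed congruence.
PROOF. `op_modF` is in Helper14_MV.B2; the identities: reverse both words and rename the letters
(`RR.sub`); `xyx` and `x²` are palindromes. -/
def MirStmt : Prop := ∀ β : FIC,
  (∀ l l' : List ℕ, RR (mir β) l l' ↔ RR β l.reverse l'.reverse) ∧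
  (ModF β → ModF (mir β)) ∧ (Iso2 β → Iso2 (mir β)) ∧ (Iso3 β → Iso3 (mir β)) ∧
  (S1 (mir β) ↔ S3 β) ∧ (S2 (mir β) ↔ S2 β) ∧ (S3 (mir β) ↔ S1 β) ∧
  (R0 (mir β) ↔ R0 β) ∧ (A1 (mir β) ↔ B3 β) ∧ (A2 (mir β) ↔ B2 β) ∧
  (B2 (mir β) ↔ A2 β) ∧ (B3 (mir β) ↔ A1 β) ∧ (FF (mir β) ↔ ZZ β) ∧
  (ZZ (mir β) ↔ FF β) ∧ (F1L (mir β) ↔ F1R β) ∧ (F1R (mir β) ↔ F1L β)

/-! ## Block B: no y-rigid word (lemma N2)

`P y z_0 … z_(m-1) y Q` where `P`, `Q` consist of isolated places of the `z_e`.  THEOREM N2: some
word equivalent to it does not have all `z_e` between the two `y`.  Proof by contradiction: `HH`.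
Take five copies `z_(5e+k)`, `k < 5`, of the chain and four local letters `y_0, …, y_3`; the words
`pw P Q m g`, `g` in `Sym(4)`. -/

/-- SHP. `β` preserves the sets `SS g`.
PROOF. `w = Wm (star P) (star Q) L`, `L` in `SL g`, `w' ~ w`.  DEC, KP2: the letters `z_E`,
`E < 5 m`, occur in `w'` once in their place block and once in the main block (label `0`).  A letter
`y_l`, `l = g j`: project `w'` to `y_l` and the copy `k`, `k = j` or `k = j + 1` (flatMap `pj l k`):
by `Inc` the image of `w` is equivalent to `bw P Q m`, so is the image of `w'`, and by `HH` the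
letter `z_(5 e + k)` has an occurrence between the two `y_l` of `w'`.  By KPL both `y_l` are in one
block of `w'` or both in the tail `e`; this block contains an occurrence of `z_(5·0+j)` and one of
`z_(5·0+j+1)`; the places of these letters are in different blocks, so it is the main block.  So
`w' = Wm (star P) (star Q) L'` (the place blocks contain one letter, the tail is empty) with
`L'.Perm L`, and `Inc` for `L'` is equivalent to `Inc` for `L` since the images of `w` and `w'`
under `pj` are equivalent: `(Wm (star P) (star Q) L).flatMap (pj j k) = Wm P Q (L.flatMap (pj j k))`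
(the main step: `(star P)` with only the indices `5 i + k` kept is `P`). -/
def ShpStmt : Prop := ∀ β : FIC, Iso2 β → Iso3 β → ∀ (P Q : List ℕ) (m : ℕ), 1 ≤ m →
  (P ++ Q).Perm (List.range m) → HH β P Q m → ∀ (g : Equiv.Perm (Fin 4)) (w w' : List ℕ),
    SS β P Q m g w → RR β w w' → SS β P Q m g w'

/-- FCT. Facts about the main blocks.
PROOF. (a) `k = j` or `k = j + 1`: `Inc` and `HH`: in `Wm P Q (L.flatMap (pj (g j) k))` every
`3 e + 1` has an occurrence between the two letters `0`; the letters `0` are in the main block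
`L.flatMap (pj (g j) k)` only and no separator is between them, so the occurrence is in the main
block; lift to `L`.  (b) `k` is another copy: `k = j2` or `k = j2 + 1` for some `j2 : Fin 4`.  If all
`z_(5 e + k)` were between the two `y_(g j)` in `L`, then `L.flatMap (pj (g j) k) = 0 :: h ++ [0]`
where `h` is the list of the letters of the copy `k` in `L` (renamed), and by (a) for `j2` also
`L.flatMap (pj (g j2) k) = 0 :: h ++ [0]`: the same word, so `Inc … (g j) k` follows from
`Inc … (g j2) k`: contradiction to `SL`. -/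
def FctStmt : Prop := ∀ β : FIC, Iso2 β → Iso3 β → ∀ (P Q : List ℕ) (m : ℕ), 1 ≤ m →
  (P ++ Q).Perm (List.range m) → HH β P Q m → ∀ (g : Equiv.Perm (Fin 4)) (L : List ℕ),
    SL β P Q m g L →
      (∀ j : Fin 4, ∀ k, (k = j.val ∨ k = j.val + 1) → ∀ e < m,
        Btw (3 * (g j).val) (3 * (5 * e + k) + 1) L) ∧
      (∀ j : Fin 4, ∀ k < 5, ¬ (k = j.val ∨ k = j.val + 1) → ∃ e < m,
        ¬ Btw (3 * (g j).val) (3 * (5 * e + k) + 1) L)

/-- PWS. `p_g` is in `SS g`.
PROOF. `(Lg m g).Perm (Lg m 1)`.  `Inc`: for `k = j` or `k = j + 1` the word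
`(Lg m g).flatMap (pj (g j) k)` is `0 :: (zs (range m) ++ [0])`: `RR.refl`.  For the other `k` it is
`0 :: 0 :: zs (range m)` or `zs (range m) ++ [0, 0]`; if `Inc` then by `HH` the letter `z_0 = 1` has
an occurrence between the two letters `0`, but they are adjacent and occur only here. -/
def PwsStmt : Prop := ∀ β : FIC, Iso2 β → Iso3 β → ∀ (P Q : List ℕ) (m : ℕ), 1 ≤ m →
  (P ++ Q).Perm (List.range m) → HH β P Q m → ∀ g : Equiv.Perm (Fin 4),
    SS β P Q m g (pw P Q m g)

/-- KEY. Substitution instances of `p_g` in `SS h` are trivial or `p_h`.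
PROOF. Let `w = M ++ (pw P Q m g).flatMap φ ++ N = Wm (star P) (star Q) L`, `L` in `SL h`, and
`φ (3 j0) ≠ []` for some `j0 < 4`.  Let `F = (Lg m g).flatMap φ`.
(0) All letters of `F` occur twice in `w` (every letter of `Lg m g` occurs twice in `p_g`), so `F`
has no separator and lies in one block of `w` (FAC).  A letter `d` of `φ (3 j)` occurs twice in `F`,
and only the letters `y_l` occur twice in one block: the block is the main block, `F` is a factor of
`L` and `φ (3 j)` consists of letters `y_l`, each once.  Two letters `y_l ≠ y_l'` in `φ (3 j)`: some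
two adjacent ones are adjacent twice in `L`: `.. d d' .. d d' ..`, so the same letters `z` are
between the two `d` and between the two `d'`; contradiction to FCT (`d = y_(h a)`, `d' = y_(h b)`,
`a < b`: `y_(h a)` has all `z_(5 e + a)`, `y_(h b)` not all; in the other case symmetric with
`a + 1` replaced by `b + 1`).  So `φ (3 j)` is `[]` or one letter `y_l`.
(1) A letter `Z = z_(5 i + k)` of `p_g` occurs once in the main block and once at its place.  If
`φ Z` contains a letter `D = z_E` then the two occurrences of `φ Z` contain the two occurrences of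
`D` in `w`; the one in `F` is in the main block, so the other is the place of `D`, a block with one
letter; `φ Z` has no separator: `φ Z = [D]`, and the place of `Z` is mapped to the place of `D`.
Otherwise `φ Z` consists of letters `y_l`.
(2) Let `φ (3 (g j)) = [y_(h j')]` (write the index as `h j'`).  The part of `L` between the two
`y_(h j')` is the image of the part `c_j … c_(j+1)` of `Lg m g` between the two `y_(g j)`.  It
contains the `2 m` letters `z_(5 e + k')`, `k' = j', j' + 1` (FCT a), and each of the `2 m` letters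
`z_(5 e + k)`, `k = j, j + 1`, gives at most one: so each of them is mapped to one of these letters,
bijectively.  Places: `M ++ (image of the part of p_g left of the main block)` is the part of `w`
left of the block `F`, so the letters `φ (z_E)`, `E` in `star P`, which are single letters `z`, are
a sublist of the letters at the places of `star P` in the same order; the same for `star Q`.
Restricted to the copies `j, j + 1` we get a sublist of `star P` restricted to the copies
`j', j' + 1`, the same for `Q`, and the total lengths are equal (`2 m`), so the lists are equal: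
`φ (z_(5 e + k)) = [z_(5 e + k + j' - j)]`, `k = j, j + 1`.
(3) RIGHT NEIGHBOUR: if `j' ≤ 2` then `j ≤ 2` and `φ (3 (g (j+1))) = [y_(h (j'+1))]`.  Let
`Y = y_(h (j'+1))`, occurrences at `a < b` in `L`.  All `z_(5 e + j' + 1)` are between `a` and `b`,
some `z_(5 i + j')` is not (FCT).  In `L` the image of `c_j` comes before the image of `c_(j+1)`,
so `z_(5 i + j')` is before all `z_(5 e + j' + 1)`, hence before `a`.  So `a` is in the image of the
part of `Lg m g` between the letters of `c_j` and the letters of `c_(j+1)`, which (the letters of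
`c_j` are mapped to letters `z`) is the image of a local letter `μ` in the gap between `c_j` and
`c_(j+1)`, `φ μ = [Y]`.  If this were the second occurrence of `μ`, its first occurrence would give
an occurrence of `Y` before `a`.  So it is the first occurrence of `μ`: the gap after `c_0` has the
first occurrence of `y_(g 1)`, after `c_1` of `y_(g 2)` (and the second of `y_(g 0)`), after `c_2`
of `y_(g 3)`, after `c_3` none.  LEFT NEIGHBOUR: if `j' ≥ 1` then `j ≥ 1` and
`φ (3 (g (j-1))) = [y_(h (j'-1))]` in the same way (the second occurrence `b` of `y_(h (j'-1))` is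
in the gap between `c_j` and `c_(j+1)`; second occurrences there: after `c_0` none, after `c_1`
`y_(g 0)`, after `c_2` `y_(g 1)`, after `c_3` `y_(g 2)`).
(4) Going right until `j' = 3` gives `j ≤ j'`, going left until `j' = 0` gives `j ≥ j'`.  So `j = j'`
and `φ (3 (g i)) = [3 (h i)]` for all `i`, `φ (z_E) = [z_E]` for all `E < 5 m`.  `F = Lg m h` has
the content of `L` and is a factor of `L`: `L = Lg m h`; by uniqueness of the decomposition
`M ++ (left part of p_g).flatMap φ` is the left part of `w` and similarly on the right (the main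
block is where the letters `y` are).  So for every `s`:
`M ++ (pw (g * s)).flatMap φ ++ N = Wm (star P) (star Q) ((Lg m (g * s)).flatMap φ)` and
`(Lg m (g * s)).flatMap φ = Lg m (h * s)`. -/
def KeyStmt : Prop := ∀ β : FIC, Iso2 β → Iso3 β → ∀ (P Q : List ℕ) (m : ℕ), 1 ≤ m →
  (P ++ Q).Perm (List.range m) → HH β P Q m → ∀ (g h : Equiv.Perm (Fin 4)) (φ : ℕ → List ℕ)
    (M N : List ℕ), SS β P Q m h (M ++ ((pw P Q m g).flatMap φ ++ N)) →
      (∀ j : Fin 4, φ (3 * j.val) = []) ∨
        ∀ s : Equiv.Perm (Fin 4),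
          M ++ ((pw P Q m (g * s)).flatMap φ ++ N) = pw P Q m (h * s)

/-- PN2. LEMMA N2.
PROOF. Suppose not: `HH`.  For a subgroup (or finite set closed under products) `K` of
`Equiv.Perm (Fin 4)` let `θ_K` be the fully invariant congruence of all `(u, v)` such that for all
`g` and all `φ, M, N` the word `M φ(u) N` is in `⋃_{k ∈ K} SS (g k)` iff `M φ(v) N` is (intersection
of congruences `gam`, as `FK` in Helper2_MV.Pin).  (1) `β ≤ θ_K`: SHP.  (2) `(p_g, p_(g s))` is in
`θ_K` for `s ∈ K`: if `M φ(p_g) N` is in `SS h`: KEY: either all `φ (3 j) = []`, then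
`M φ(p_(g s)) N = M φ(p_g) N` (the two words differ only in the letters `y`), or
`M φ(p_(g s)) N = p_(h s)`, in `SS (h s)` by PWS; the converse in the same way with `s⁻¹`.
(3) The sets `SS g` are disjoint: for `L` in `SL g` the set of `k` with `Inc L l k` is `{j, j + 1}`
for `l = g j`.  (4) `H1 = {1, (0 1)(2 3)}`, `H2 = {1, (0 1)(2 3), (0 2)(1 3), (0 3)(1 2)}`,
`K = {1, (0 1 2), (0 2 1)}`; `ρ = θ_H1 ≤ τ = θ_H2`, `σ = θ_K`.  With `k = (0 1 2)`,
`a = (0 1)(2 3)`: `s = k a k⁻¹` is in `H2` and not in `H1`;
`p_1 σ p_k ρ p_(k a) σ p_(k a k⁻¹)`, so `(p_1, p_s)` is in `ρ ∨ σ` and in `τ`.  Modular law: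
`(p_1, p_s)` is in `ρ ∨ (σ ∧ τ)`.  But `ρ` preserves `⋃_{H1} SS h`, and `σ ∧ τ` preserves every
`SS g`: from `SS g` we come to `SS (g k')` and to `SS (g h')`, so `k' = h'` is in `K ∩ H2 = {1}`.
So `p_s` is in `SS 1` or in `SS a`: contradiction with `p_s ∈ SS s` (PWS, disjointness). -/
def Pn2Stmt : Prop := ∀ β : FIC, ModF β → Iso2 β → Iso3 β → ∀ (P Q : List ℕ) (m : ℕ), 1 ≤ m →
  (P ++ Q).Perm (List.range m) →
    ∃ w', RR β (bw P Q m) w' ∧ ¬ ∀ e < m, Btw 0 (3 * e + 1) w'

/-! ## Block C: the scheme F1L -/

/-- SHW. The shape of the words equivalent to `bw P Q m`.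
PROOF. DEC, KP2, KPL: the letters `z_e` are at their places and once in the main block; the two `y`
(letter `0`) are both in one block or both in the tail.  If this is the main block: first
alternative.  Otherwise `SQ β` (KPL); without the letters `0` the word is `Wm P Q (zs D')`; the
letters `0` are in a place block `[z_e]` or in the tail: `yyz`, `yzy`, `zyy` or `yy`. -/
def ShwStmt : Prop := ∀ β : FIC, Iso2 β → Iso3 β → ∀ (P Q : List ℕ) (m : ℕ),
  (P ++ Q).Perm (List.range m) → ∀ w', RR β (bw P Q m) w' →
    (∃ L', L'.Perm (0 :: (zs (List.range m) ++ [0])) ∧ w' = Wm P Q L') ∨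
    (SQ β ∧ ∃ D' : List ℕ, D'.Perm (List.range m) ∧
      w'.filter (fun c => decide (c ≠ 0)) = Wm P Q (zs D') ∧
      ∃ A C : List ℕ, w' = A ++ 0 :: 0 :: C ∨ ∃ e < m, w' = A ++ 0 :: (3 * e + 1) :: 0 :: C)

/-- COR. Corollary of N2 for `m = 1`.
PROOF. `P = [], Q = [0]`: the word is `y z y 2 z 5` (`y = 0`, `z = 1`).  N2 gives `w'` with `z` not
between the `y`.  SHW: either `w' = [L', 2, z, 5]` with `L'` one of `zyy`, `yyz` (renaming, delete
`5`: `A1` or `A2`; note `A1 β` is `yxy t x ≈ xyy t x`), or `SQ` and `w' = A 0 0 C` or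
`A 0 1 0 C` (this has `z` between the `y`, impossible): by `SQ` (CTY) `w' ~` the word with `yy` at
the beginning of the word or directly before any place: `y z y t z ~ yy z t z`, that is `A2` (and
`A1`).  `P = [0], Q = []`: the word is `z 5 y z y 2`: in the same way `B2` or `B3`. -/
def CorStmt : Prop := ∀ β : FIC, ModF β → Iso2 β → Iso3 β → (A1 β ∨ A2 β) ∧ (B2 β ∨ B3 β)

/-- KAP. `F1L` for isolated places.
PROOF. Chain of length `m = k + 2`, `W = bw P Q m`.  N2 (PN2) gives `w' ~ W` with some `z_e` not
between the `y`; SHW.  CLAIM `W ~ Wm P Q (zs (range m) ++ [0, 0])` (call it `D yy`).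
* Case `SQ`: by CTY (`A1` with `SQ`: `yxy ~ xyy ~ yyx`) the two `y` can be made adjacent
(`0 z_e 0`: the other occurrence of `z_e` is left or right: `B2` or `A1`), and `yy` moves anywhere:
`w' ~` (`w'` without `0`, then `0 0` at the end of the main block) `= Wm P Q (zs D' ++ [0, 0])`; and
`Wm P Q (zs D') ~ Wm P Q (zs (range m))` (erase `0` in `W ~ w'`), insert `0 0` at the end of the
main block by the substitution `2 ↦ 0 0 2`.
* Case main block: `w' = Wm P Q L'`, `L'` = the chain letters in the order `D' = e_0 … e_(m-1)` with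
`y` at the gaps `i ≤ j`, `(i, j) ≠ (0, m)`.  (a) `j = m`, `i ≥ 1`: `F1Lk β k`, used for the words
between the two `y` of length `≤ m - 2`, moves the first `y` to the second:
`w' ~ Wm P Q (zs D' ++ [0,0])`.  (b) `j < m`: for `l ≥ j` project `W ~ w'` to `y` and `z_(e_l)` (and
one separator between its occurrences): `y z y ~ yy z`, that is `A2` if the place of `z_(e_l)` is
right of the main block and `B3` if it is left.  First `y` moved to the second as in (a) (at most
`m - 2` letters to cross... the words between have length `≤ m - 2`; nothing to do if `i = j`), then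
`yy z ~ yzy ~ zyy` (`A2` then `A1`, resp. `B3` then `B2`) moves `yy` over `z_(e_j)`, …,
`z_(e_(m-1))`.  So again `w' ~ Wm P Q (zs D' ++ [0, 0]) ~ Wm P Q (zs (range m) ++ [0,0])`.
Finally `Wm P Q (1 :: 0 :: (zs [1..m-1] ++ [0])) ~ Wm P Q (zs (range m) ++ [0, 0])` by `F1Lk β k`
(words between of length `≤ m - 2 = k`). -/
def KapStmt : Prop := ∀ β : FIC, ModF β → Iso2 β → Iso3 β → A1 β → B2 β → ∀ k : ℕ, F1Lk β k →
  ∀ P Q : List ℕ, (P ++ Q).Perm (List.range (k + 2)) →
    RR β (bw P Q (k + 2)) (Wm P Q (1 :: 0 :: (zs (List.range' 1 (k + 1)) ++ [0])))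

/-- F1K. `F1L` from `A1` and `B2`.
PROOF. `F1Lk β 0`: `y x y ~ x y y` with `x` in `p` (`B2`) or in `q` (`A1`) (CTY).
`F1Lk β k → F1Lk β (k+1)`: word `p y x c y q`, `|c| ≤ k + 1`.  If `|c| ≤ k` done.
* `y ∈ c`: `c = c1 y c2`: `F1Lk` with `c1` (shorter).
* `x ∈ c`: `c = c1 x c2`: `p x y c1 x … ~ p y x c1 x …` is `F1Lk` with the roles of `x` and `y`
exchanged and `c1`.
* `c` has a repeated letter `v`: `c = c1 v c2 v c3`: the first `v` is followed by `v`; move it to
the left over the letters of `c1`, over `x` and over `y` by `F1Lk β k` (the words between this `v`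
and the second `v` have length `≤ 1 + |c1| + |c2| ≤ k`; equal letters: nothing to do):
`p y x c y q ~ p v y x c1 c2 v c3 y q`; `F1Lk β k` for the word `c1 c2 v c3` of length `k`; move `v`
back.  (All letters crossed are multiple: they occur in the whole word at least twice; `x` and `y`
too.  For `F1Lk` one needs: crossed letter `u ≠ v` has another occurrence outside the pair: yes,
`u` is multiple and occurs once in the crossed place.)
* otherwise `x :: c` is without repetitions, without `y`, every letter occurs in `p` or `q` (it is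
multiple): INW with `D = x :: c` and KAP: multiply by `M` and substitute. -/
def F1kStmt : Prop := ∀ β : FIC, ModF β → Iso2 β → Iso3 β → A1 β → B2 β → F1L β

/-! ## Block D: finite pentagons -/

/-- all ways to write a prefix of `w` as an image of `u`: assignments and the rest of `w` -/
def fits : List ℕ → List ℕ → List (ℕ × List ℕ) → List (List (ℕ × List ℕ) × List ℕ)
  | [], w, env => [(env, w)]
  | a :: u, w, env =>
    match env.lookup a with
    | some v => if v.isPrefixOf w then fits u (w.drop v.length) env else []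
    | none => (List.range (w.length + 1)).flatMap
        (fun k => fits u (w.drop k) ((a, w.take k) :: env))

/-- the image of `v` under an assignment -/
def appE (env : List (ℕ × List ℕ)) (v : List ℕ) : List ℕ :=
  v.flatMap (fun a => (env.lookup a).getD [])

/-- one step with the identity `u ≈ v` (from left to right) stays in the finite set `T` when it
starts in the finite set `T` -/
def chkP (u v : List ℕ) (T : List (List ℕ)) : Bool :=
  T.all (fun w => (List.range (w.length + 1)).all (fun i =>
    (fits u (w.drop i) []).all (fun er => T.contains (w.take i ++ (appE er.1 v ++ er.2)))))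

/-- FIN. Soundness of the finite check.
PROOF. `fits` is complete: if `w = u.flatMap φ ++ r` and `env` agrees with `φ` then some
`(env', r)` in `fits u w env` agrees with `φ` on the letters of `u` and of `env` (induction on
`u`). -/
def FinStmt : Prop := ∀ (u v : List ℕ) (T : List (List ℕ)), (∀ a ∈ v, a ∈ u) →
  chkP u v T = true → ∀ (φ : ℕ → List ℕ) (M N : List ℕ), M ++ (u.flatMap φ ++ N) ∈ T →
    M ++ (v.flatMap φ ++ N) ∈ T

/-- PEN. The pentagon criterion.  (`gen β G`: smallest fully invariant congruence which contains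
`β` and the pairs of `G`; it is given here by its properties.)
`ρ`, `σ`, `τ` are fully invariant congruences above `β`, `ρ ≤ τ`; `ρ` keeps the set `A`, `σ` keeps
`B`, `τ` keeps `C`, `B ∩ C ⊆ A`, `A ⊆ B`, `A ⊆ C`; `w0 ∈ A`, `w1 ∉ A`, `(w0, w1) ∈ τ`,
`(w0, w1) ∈ ρ ∨ σ`.  Then `ModF β` fails.
PROOF. Modular law: `(w0, w1) ∈ ρ ∨ (σ ∧ τ)`; along the chain we stay in `A`: a `ρ` step keeps `A`,
a `σ ∧ τ` step goes from `A ⊆ B ∩ C` to `B ∩ C ⊆ A`. -/
def PenStmt : Prop := ∀ β : FIC, ModF β → ∀ (ρ σ τ : FIC) (A B C : List ℕ → Prop), β ≤ ρ → β ≤ σ →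
  β ≤ τ → ρ ≤ τ → (∀ w w', RR ρ w w' → A w → A w') → (∀ w w', RR σ w w' → B w → B w') →
    (∀ w w', RR τ w w' → C w → C w') → (∀ w, A w → B w ∧ C w) → (∀ w, B w → C w → A w) →
      ∀ w0 w1, A w0 → ¬ A w1 → RR τ w0 w1 → ¬ RR (FIC.sup ρ σ) w0 w1

/-- GEN. The fully invariant congruence generated by `β` and a set of pairs of words.
PROOF. `r u v := ∀ θ : FIC, β ≤ θ → (∀ e, G e → RR θ e.1 e.2) → RR θ u v` (intersection of all such
congruences).  For the last part take `θ = gam` of the set `S` (Helper14_MV.B2): it contains `β` and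
the pairs of `G`. -/
def GenStmt : Prop := ∀ (β : FIC) (G : List ℕ × List ℕ → Prop), ∃ θ : FIC, β ≤ θ ∧
  (∀ e, G e → RR θ e.1 e.2) ∧ (∀ θ' : FIC, β ≤ θ' → (∀ e, G e → RR θ' e.1 e.2) → θ ≤ θ') ∧
  (∀ S : List ℕ → Prop, (∀ w w', RR β w w' → S w → S w') →
    (∀ e, G e → ∀ (φ : ℕ → List ℕ) (M N : List ℕ),
      S (M ++ (e.1.flatMap φ ++ N)) ↔ S (M ++ (e.2.flatMap φ ++ N))) →
    ∀ w w', RR θ w w' → S w → S w')

/-- NT3. Letters `x = 0`, `y = 3`, `z = 6`, separators `2`, `5`; a word `z | l | x` is
`[6, 2] ++ l ++ [5, 0]`.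
PROOF. Suppose `A2`, `B2` fail; then `A1`, `B3` hold, and `SQ` fails (with `A1` it gives `A2`).
PEN with `A = {z|yzyx|x, z|yyzx|x}`, `B = A ∪ {z|zyyx|x}`, `C = A ∪ {z|yzxy|x}`,
`ρ = β + A2`, `σ = β + (z|zyxy|x ≈ z|yzxy|x)`, `τ = β + (z|yzyx|x ≈ z|yzxy|x)` (GEN), `ρ ≤ τ` (erase
`z` and the first separator: `A2`), `w0 = z|yzyx|x`, `w1 = z|yzxy|x`; chain
`w1 σ z|zyxy|x ρ z|zyyx|x σ z|yzyx|x = w0` (the last step: erase `x` in the identity of `σ`, then
insert `x` before and after the second separator).  `β` keeps `A`, `B`, `C`: a word equivalent to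
`z|l|x` (`l` an arrangement of `y, y, z, x`) is `z|l'|x` with the same letters (use DEC, KP2, KPL
with `SQ` failing, or project to two letters and a separator); the pair `z, x` in `l` keeps its
order (`S2` fails), the pair `y, x` has the classes `{yxy, xyy}`, `{yyx}` (`A2` fails), the pair
`y, z` the classes `{yzy, yyz}`, `{zyy}` (`B2` fails).  So `A`, `B`, `C` are unions of classes
given by these three data.  The identities: `chkP` in both directions (FIN, `decide +kernel`). -/
def Nt3Stmt : Prop := ∀ β : FIC, ModF β → Iso2 β → Iso3 β → A1 β ∨ A2 β → B2 β ∨ B3 β → ¬ S2 β →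
  A2 β ∨ B2 β

/-- NT4. PROOF. Suppose `A1` and `B3` fail (`A2`, `B2` hold); `SQ` fails (with `A2` it gives `A1`).
As NT3 with `A = {z|yxzy|x}`, `B = A ∪ {z|zyxy|x, z|zyyx|x, z|yzyx|x, z|yzxy|x}`,
`C = A ∪ {z|xzyy|x, z|xyzy|x}`, `ρ = β + A1`, `σ = β + S2`, `τ = β + (z|xyzy|x ≈ z|yxzy|x)`
(erase `z`: `A1`), `w0 = z|yxzy|x`, `w1 = z|xyzy|x`, chain
`w1 β z|xzyy|x σ z|zxyy|x ρ z|zyxy|x σ z|yzxy|x σ z|yxzy|x`.  Classes kept by `β`: order of `z, x`;
`{yxy, yyx}`, `{xyy}`; `{yzy, zyy}`, `{yyz}`. -/
def Nt4Stmt : Prop := ∀ β : FIC, ModF β → Iso2 β → Iso3 β → ¬ S2 β → A2 β → B2 β → A1 β ∨ B3 β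

/-- NT5. Letters `x = 0`, `y = 3`, `t = 2`.
PROOF. Suppose `R0` fails.  Since `S1`, `S2` hold, the arrangements of `x, x, y, y` are equivalent to
`xxyy` (last `x` before last `y`) or to `yyxx`; so `xyxy ≈ xyyx` is not in `β`, hence `Rx` fails
(`t := 1`), and `SQ` fails (`t := yy`).  PEN with `A = {xytxy, yxtxy}`, `C = A ∪ {xytyx, yxtyx}`,
`B` = all words in `x, x, y, y, t` with the last `x` before the last `y`; `ρ = β + R0`,
`σ = β + (xtx ≈ txx)`, `τ = β + Rx`; `ρ ≤ τ` (`t := 1` in `Rx`, then `S1`, `S2`), `w0 = xytxy`,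
`w1 = xytyx`; chain `xytxy σ txyxy β txxyy ρ tyyxx σ xytyx`.  `β` keeps `A` and `C`: both letters
are split by `t` (`iso_aba`), `Rx` fails and `xytxy ≈ yxtxy` by `S1`; `β` keeps `B`: erase `t`. The
identities keep the sets: `chkP`, or directly: `xtx ≈ txx` does not change the order of the last
occurrences. -/
def Nt5Stmt : Prop := ∀ β : FIC, ModF β → Iso2 β → Iso3 β → S1 β → S2 β → R0 β

/-! ## Block E: compound pins (lemma N1)

The lemma of Helper2_MV with the pins replaced by chains.  Compare Helper2_MV/Order.lean (KPF),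
Step.lean (STF), Pin.lean (PEF). -/

/-- KPF. `β` keeps the family and the arrangement `s` of the block `0`.
PROOF. `w = Bw R B` in `Fam R G s`, `w' ~ w`.  All letters occur in two different blocks: `3 i` in
the blocks `0`, `1`; `z_(3l+k)` in the blocks `1`, `l + 2`.  DEC, KP2: `w' = Bw R B'` with
`(B' 0).Perm`, `(B' 1).Perm`, `(B' (l+2)).Perm`.  For `k < 3` and `i ≤ k < j ≤ 3` substitute
`3 i ↦ 0`, `3 j ↦ 3`, `z_(3l+k) ↦ z_l`, separators fixed, all other letters erased: the image of `w`
is `Ew R (h k) X`, `X = [0, 3]` if `i` is before `j` in `s` and `[3, 0]` otherwise; so by `GOk.cl`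
the image of `w'` is `Ew R h' X` with `G h'`.  Hence `i, j` have in `B' 0` the same order as in `s`
(all pairs `i < j`): `B' 0 = B 0`; and `B' 1` restricted to `x_k`, the copy `k` and `x_(k+1)` is
`x_k, h'_k, x_(k+1)` with `G (h'_k)`; therefore `B' 1 = L3 h'` (`x_0 < copy 0 < x_1 < copy 1 < x_2 <
copy 2 < x_3`). -/
def KpfStmt : Prop := ∀ β : FIC, Iso2 β → Iso3 β → ∀ (m : ℕ) (R : List ℕ) (G : List ℕ → Prop),
  1 ≤ m → R.Perm (List.range (m + 2)) → GOk β m R G → ∀ s w w' : List ℕ, Fam R G s w →
    RR β w w' → Fam R G s w'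

/-- STF. The substitution step.
PROOF. `N = M ++ (Fw R s c0).flatMap φ ++ Q ∈ Fam R G t`.  All letters of `Fw R s c0` which are not
separators occur twice, so their images have no separators.  `Y = X-block image =
s.flatMap (φ (3 ·))`, `Λ` = image of the block `1`.  If at most one `φ (3 i)`, `i < 4`, is not empty
the words for `s` and `s'` are equal: `t' = t`.  Otherwise `|Y| ≥ 2`, the letters of `Y` are in `Λ`,
`Y` and `Λ` are factors of blocks `rY ≠ rL` of `N` (FAC; every letter of `N` has its two
occurrences in different blocks).  `rY ≠ 1`: two adjacent letters of the block `1` (`x z`, `z x`, or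
two letters of the same copy) are not both in one other block.  `rL = 1`: the blocks `0`, `l + 2`
have no common letters.  If `rY = l + 2`: only the place block `l + 2` is rearranged: `t' = t`.
If `rY = 0`: every `φ (3 i)` consists of letters `3 a` and is a factor of the block `1`, so it has
length `≤ 1`.  `Λ` contains two letters `3 a`, so between them a complete copy `k` of the chain:
for every `l < m` a letter `z_(3l+k)`, which comes from some `φ (z_(3l'+k'))`, and the image `F_l'`
of the place block `l' + 2` (one factor without separators, in one block of `N`) contains the other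
occurrence of this letter: `F_l'` is in the place block `l + 2`.  So `l' ↦ l` is defined for
the nonempty `F_l'` and surjective onto `{0..m-1}`, hence bijective: all `F_l'` are in place blocks,
so no `φ (z)` contains a letter `3 a`.  So the letters `3 a` of `Λ` are
`φ(0) φ(3) φ(6) φ(9)`, an interval of `0, 3, 6, 9`; apply `fin_step` (Helper2_MV.Perm4) to
`y i = (φ (3 i)).map (· / 3)`. -/
def StfStmt : Prop := ∀ (m : ℕ) (R : List ℕ) (G : List ℕ → Prop) (c0 : List ℕ), 1 ≤ m →
  R.Perm (List.range (m + 2)) → (∀ h, G h → h.Perm (List.range m)) → G c0 →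
    ∀ s s' : List ℕ, s.Perm [0, 1, 2, 3] → s'.Perm [0, 1, 2, 3] → chk s s' = true →
      ∀ (φ : ℕ → List ℕ) (M Q t : List ℕ), Fam R G t (M ++ ((Fw R s c0).flatMap φ ++ Q)) →
        ∃ t', Fam R G t' (M ++ ((Fw R s' c0).flatMap φ ++ Q)) ∧
          (cls t' = cls t ∨ (t = s ∧ t' = s'))

/-- PEF. LEMMA N1 (compound pins).
PROOF. Exactly as `pin` in Helper2_MV/Pin.lean, with `PP c w := ∃ s, Fam R G s w ∧ c (cls s)`
(`s` is determined by `w`: UNI), KPF instead of `preserve` and STF instead of `step`; the words of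
the pentagon are `Fw R s c0`, `s` one of `[0,1,2,3]`, `[1,3,0,2]`, `[2,0,3,1]`, `[3,2,1,0]`. -/
def PefStmt : Prop := ∀ β : FIC, ModF β → Iso2 β → Iso3 β → ∀ (m : ℕ) (R : List ℕ)
  (G : List ℕ → Prop) (c0 : List ℕ), 1 ≤ m → R.Perm (List.range (m + 2)) → GOk β m R G → G c0 →
    False

/-! ## Block F: applications -/

/-- ORD. The order of two letters with rigid kinds is kept.
PROOF. Project to `u`, `v` and the separators: e.g. `a1`, `a2` both before `b`:
`u t v s uv` (or `v t u s uv`) goes to `… vu` only if `S3`.  (After the projection the word has at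
most three non-trivial blocks; erase the superfluous separators, rename.)  `u, v` have the same
blocks in `B'` (hypothesis). -/
def OrdStmt : Prop := ∀ β : FIC, Iso3 β → ∀ (R : List ℕ) (B B' : ℕ → List ℕ), R.Nodup →
  (∀ r ∈ R, SFr (B r)) → (∀ r ∈ R, SFr (B' r)) → RR β (Bw R B) (Bw R B') →
    ∀ (b a1 a2 u v : ℕ), b ∈ R → a1 ∈ R → a2 ∈ R → b ≠ a1 → b ≠ a2 → a1 ≠ a2 → u ≠ v →
      u % 3 ≠ 2 → v % 3 ≠ 2 →
      (∀ q ∈ R, (B q).count u = if q = b ∨ q = a1 then 1 else 0) →
      (∀ q ∈ R, (B q).count v = if q = b ∨ q = a2 then 1 else 0) →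
      (∀ q ∈ R, (B' q).count u = if q = b ∨ q = a1 then 1 else 0) →
      (∀ q ∈ R, (B' q).count v = if q = b ∨ q = a2 then 1 else 0) →
      rg β (Bfr R a1 b) (Bfr R a2 b) → Bfr (B b) u v → Bfr (B' b) u v

/-- PRP. Application of N1.  Kind of `z_e`: `Bfr R (e + 2) 1`; kind of `x`, `y`: `Bfr R 0 1`.
PROOF. Suppose not.  `G h` := `h` is a permutation of `range m` and every pair `u ≠ v` with
`rg β (kind u) (kind v)` has in `h` the same order as in `c`.  CLAIM `GOk β m R G`: let `G h`,
`Ew R h X ~ w'`.  DEC, KP2: `w' = Bw R B'`, `B' 0` an arrangement of `0, 3`, `B' (e+2) = [z_e]`,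
`B' 1` an arrangement of `0, z's, 3`.  By ORD rigid pairs keep their order in `B' 1`.  Every `z_u` is
after `x` (letter `0`) in `B' 1`: if `rg (kind u) K` (K = kind of x) by ORD; otherwise we are not in
the case all kinds are K (there the head is rigid, so all are), so `S2` fails, `kind u = K` (letters
of different kinds are rigid), the head `z1` of `c` is rigid against `K`, so `z1` has the other kind
(if it had kind `K` then `rg K K` and `u` would be rigid), so `z1, u` are rigid: `x < z1` (ORD) and
`z1 < u` (`z1` is before `u` in `c`, hence in `h`, hence in `B' 1` by ORD).  In the same way with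
the last letter `zm`: `z_u < zm < y`.  So `B' 1 = 0 :: zs h' ++ [3]` with `G h'`.  If `B' 0 = X` the
claim is proved for this `w'`.  If `B' 0 ≠ X` then `Ew R h X ~ Ew R h' X'`, `{X, X'} =
{[0,3], [3,0]}`; by TRC and CTX (pairs which are not rigid commute in `β` in all contexts with these
kinds) `Ew R c X ~ Ew R h X` and `Ew R h' X' ~ Ew R c X'`: the statement follows.  So `GOk` holds
and PEF (with `c0 = c`) gives `False`. -/
def PrpStmt : Prop := ∀ β : FIC, ModF β → Iso2 β → Iso3 β → ∀ (m : ℕ) (R c : List ℕ),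
  R.Perm (List.range (m + 2)) → c.Perm (List.range m) →
    (∃ z l, c = z :: l ∧ rg β (Bfr R (z + 2) 1) (Bfr R 0 1)) →
    (∃ z l, c = l ++ [z] ∧ rg β (Bfr R (z + 2) 1) (Bfr R 0 1)) →
    (¬ S2 β ∨ ∀ e < m, (Bfr R (e + 2) 1 ↔ Bfr R 0 1)) →
      RR β (Ew R c [0, 3]) (Ew R c [3, 0])

/-- FFC. `FF` if `S2` is in `β` and `S1`, `S3` are not.
PROOF. Induction on `|c|`; word `p xy q x c y r`; `x = y` trivial.
* `x ∈ c` or `y ∈ c`: `c = c1 x c2`: take `q x c1` instead of `q` and `c2` instead of `c`;
`c = c1 y c2`: take `c1` instead of `c`.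
* some letter `v` of `c` occurs later (in the rest of `c` or in `r`): take the leftmost such
occurrence, `c = c1 v c2`; the letters of `c1` do not occur later and are multiple, so they occur
before; `x` occurs before; so `v` (not a last occurrence) commutes with them by `S2` (CTX: `u ∈ p'`,
`v ∈ q'`): move `v` to the left of the second `x` in both words; the rest is the statement for
`c1 c2`.
* otherwise the letters of `c` are different, different from `x, y`, do not occur in `r` and are
multiple: they occur in `p` or in `q`.  INS: `R` with `Bfr R 0 1` and all kinds `Bfr R (e+2) 1`.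
If `c = []`: `FF` is `Lx` in a context; take PRP for `m = 1`, `R = [2, 0, 1]`, and erase the pin.
If `c ≠ []`: PRP (`c := range m`; `rg` of true, true is `¬ S3`), multiply by `M`, substitute. -/
def FfcStmt : Prop := ∀ β : FIC, ModF β → Iso2 β → Iso3 β → S2 β → ¬ S1 β → ¬ S3 β → FF β

/-- FFL. `FF` if `S2` is not in `β` and `F1L` holds.
PROOF. Induction on `|c|` as in FFC.
* `x ∈ c` or `y ∈ c`: as in FFC.
* `c` has a repeated letter `v`, `c = c1 v c2 v c3`: by `F1L` the first `v` can be moved to the left
over `c1` and over the second `x` (all letters are multiple; equal letters: nothing to do), in both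
words; then the statement for `c1 c2 v c3`.
* otherwise all letters of `c` are different, different from `x, y` and occur in `p`, `q` or `r`.
If `c = []`: PRP with `m = 1`, `R = [0, 1, 2]` (pin of the other kind, rigid since `S2` fails),
erase the pin.  If the first letter `z` of `c` occurs in `p` or `q` and `S3` holds: `x z ~ z x` (CTX)
moves it out in both words.  The same for the last letter `z` of `c` (`z y ~ y z`).  Otherwise INS:
the first and the last letter are rigid against `x`, `y` (kind true, which is the kind of `x, y`: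
`¬ S3`; kind false: `¬ S2`): PRP. -/
def FflStmt : Prop := ∀ β : FIC, ModF β → Iso2 β → Iso3 β → ¬ S2 β → F1L β → FF β

/-- FFR. `FF` if `S2` is not in `β` and `F1R` holds.
PROOF. As FFL; for a repeated letter `c = c1 v c2 v c3` the second `v` is moved to the right over
`c3` and over `y` by `F1R`. -/
def FfrStmt : Prop := ∀ β : FIC, ModF β → Iso2 β → Iso3 β → ¬ S2 β → F1R β → FF β

/-- ASM. THE CLASS DIVISION.
PROOF. `S2` holds: if `S1` then `R0` by NT5; if `S3` then the mirror image (MIR) satisfies `S1`,
`S2`, so `R0`; otherwise `FF` by FFC and `ZZ` by FFC for the mirror image.  `S2` fails: COR, NT3, NT4: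
(`A1` and `B2`) or (`A2` and `B3`).  In the first case F1K gives `F1L`, FFL gives `FF`, and FFR for
the mirror image (which satisfies `F1R`) gives `ZZ`.  In the second case the mirror image satisfies
`A1` (from `B3`) and `B2` (from `A2`): `F1L`, `FF`, `ZZ` for the mirror image, that is `F1R`, `ZZ`,
`FF`. -/
def AsmStmt : Prop := ∀ β : FIC, ModF β → Iso2 β → Iso3 β →
  Ca β ∨ Ca' β ∨ Cc β ∨ Ve β ∨ Ve' β

end Pool.Agent.MVD
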