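import Pool.Agent.Helper2_MV.Pin

/-!
# Necessity of the class division (definitions)

Squad MVD (problem MP_23468a_al).  `β` is a fully invariant congruence, `RR β l l'` says that the
words `l`, `l'` (lists of natural numbers) are congruent, `ModF β` is the modular law for the fully
invariant congruences above `β`, `Iso3 β`: `xyx` is an isoterm, `Iso2 β`: `x ^ 2` is an isoterm.

Letters: the multiples `3 j` are the letters `x`, `y`, `y_j`; `3 e + 1` is the letter `z_e`; the
letters congruent to `2` modulo `3` are the simple letters (separators).  `Bw R B` is the word which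
consists of the blocks `B r`, `r` in the list `R`, each followed by its separator `3 r + 2`.
-/

namespace Pool.Agent.MVD

open Pool.Agent.Helper14_MV Pool.Agent.Helper2_MV

/-- `x ^ 2` is an isoterm -/
def Iso2 (β : FIC) : Prop := ∀ l, RR β [0, 0] l → l = [0, 0]

/-- no separators -/
def SFr (l : List ℕ) : Prop := ∀ c ∈ l, c % 3 ≠ 2

/-- the blocks `B r`, `r` in `R`, each followed by its separator -/
def Bw (R : List ℕ) (B : ℕ → List ℕ) : List ℕ := R.flatMap (fun r => B r ++ [3 * r + 2])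

/-- `a` has an occurrence in `R` before an occurrence of `b` -/
def Bfr (R : List ℕ) (a b : ℕ) : Prop := ∃ A B C, R = A ++ a :: (B ++ b :: C)

/-- `z` has an occurrence between two occurrences of `y` -/
def Btw (y z : ℕ) (w : List ℕ) : Prop := ∃ a b c, w = a ++ y :: (b ++ y :: c) ∧ z ∈ b

/-- the letters of `c` are multiple in `w` -/
def Mult (c w : List ℕ) : Prop := ∀ a ∈ c, 2 ≤ w.count a

/-! ### the identities -/

/-- `xy t x s y ≈ yx t x s y` -/
def S1 (β : FIC) : Prop := RR β [0, 3, 2, 0, 5, 3] [3, 0, 2, 0, 5, 3]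
/-- `x t xy s y ≈ x t yx s y` -/
def S2 (β : FIC) : Prop := RR β [0, 2, 0, 3, 5, 3] [0, 2, 3, 0, 5, 3]
/-- `x t y s xy ≈ x t y s yx` -/
def S3 (β : FIC) : Prop := RR β [0, 2, 3, 5, 0, 3] [0, 2, 3, 5, 3, 0]
/-- `yxy t x ≈ xyy t x` -/
def A1 (β : FIC) : Prop := RR β [3, 0, 3, 2, 0] [0, 3, 3, 2, 0]
/-- `yxy t x ≈ yyx t x` -/
def A2 (β : FIC) : Prop := RR β [3, 0, 3, 2, 0] [3, 3, 0, 2, 0]
/-- `x t yxy ≈ x t xyy` -/
def B2 (β : FIC) : Prop := RR β [0, 2, 3, 0, 3] [0, 2, 0, 3, 3]
/-- `x t yxy ≈ x t yyx` -/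
def B3 (β : FIC) : Prop := RR β [0, 2, 3, 0, 3] [0, 2, 3, 3, 0]
/-- `xy t xy ≈ yx t xy` -/
def Lx (β : FIC) : Prop := RR β [0, 3, 2, 0, 3] [3, 0, 2, 0, 3]
/-- `xy t xy ≈ xy t yx` -/
def Rx (β : FIC) : Prop := RR β [0, 3, 2, 0, 3] [0, 3, 2, 3, 0]
/-- `x² y² ≈ y² x²` -/
def R0 (β : FIC) : Prop := RR β [0, 0, 3, 3] [3, 3, 0, 0]
/-- `x² t ≈ t x²` -/
def SQ (β : FIC) : Prop := RR β [0, 0, 2] [2, 0, 0]

/-- `p xy q x c y r ≈ p yx q x c y r`, no simple letters in `c` -/
def FF (β : FIC) : Prop := ∀ (p q c r : List ℕ) (x y : ℕ),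
  Mult c (p ++ x :: y :: (q ++ x :: (c ++ y :: r))) →
    RR β (p ++ x :: y :: (q ++ x :: (c ++ y :: r))) (p ++ y :: x :: (q ++ x :: (c ++ y :: r)))

/-- `p x c y q xy r ≈ p x c y q yx r`, no simple letters in `c` -/
def ZZ (β : FIC) : Prop := ∀ (p q c r : List ℕ) (x y : ℕ),
  Mult c (p ++ x :: (c ++ y :: (q ++ x :: y :: r))) →
    RR β (p ++ x :: (c ++ y :: (q ++ x :: y :: r))) (p ++ x :: (c ++ y :: (q ++ y :: x :: r)))

/-- `FF` for short words `c` -/
def FFk (β : FIC) (k : ℕ) : Prop := ∀ (p q c r : List ℕ) (x y : ℕ), c.length ≤ k →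
  Mult c (p ++ x :: y :: (q ++ x :: (c ++ y :: r))) →
    RR β (p ++ x :: y :: (q ++ x :: (c ++ y :: r))) (p ++ y :: x :: (q ++ x :: (c ++ y :: r)))

/-- an occurrence of `y` which is followed by `y` in its block commutes with every multiple
letter, for short words `c` -/
def F1Lk (β : FIC) (k : ℕ) : Prop := ∀ (p c q : List ℕ) (x y : ℕ), c.length ≤ k → x ≠ y →
  x ∈ p ++ (c ++ q) → Mult c (p ++ y :: x :: (c ++ y :: q)) →
    RR β (p ++ y :: x :: (c ++ y :: q)) (p ++ x :: y :: (c ++ y :: q))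

/-- an occurrence of `y` which is followed by `y` in its block commutes with every multiple
letter -/
def F1L (β : FIC) : Prop := ∀ (p c q : List ℕ) (x y : ℕ), x ≠ y → x ∈ p ++ (c ++ q) →
  Mult c (p ++ y :: x :: (c ++ y :: q)) →
    RR β (p ++ y :: x :: (c ++ y :: q)) (p ++ x :: y :: (c ++ y :: q))

/-- the mirror image of `F1L` -/
def F1R (β : FIC) : Prop := ∀ (p c q : List ℕ) (x y : ℕ), x ≠ y → x ∈ p ++ (c ++ q) →
  Mult c (p ++ y :: (c ++ x :: y :: q)) →
    RR β (p ++ y :: (c ++ x :: y :: q)) (p ++ y :: (c ++ y :: x :: q))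

/-- `A`: `x t x y² ≈ x t y² x` -/
def IA (β : FIC) : Prop := RR β [0, 2, 0, 3, 3] [0, 2, 3, 3, 0]
/-- `Ad` (mirror image of `A`): `y² x t x ≈ x y² t x` -/
def IAd (β : FIC) : Prop := RR β [3, 3, 0, 2, 0] [0, 3, 3, 2, 0]

/-- class a -/
def Ca (β : FIC) : Prop := S1 β ∧ S2 β ∧ R0 β
/-- the mirror image of class a -/
def Ca' (β : FIC) : Prop := S2 β ∧ S3 β ∧ R0 β
/-- class c -/
def Cc (β : FIC) : Prop := S2 β ∧ FF β ∧ ZZ β
/-- class Ve (= Va of helper83) -/
def Ve (β : FIC) : Prop := F1L β ∧ FF β ∧ ZZ β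
/-- the mirror image of class Ve -/
def Ve' (β : FIC) : Prop := F1R β ∧ FF β ∧ ZZ β

/-- the mirror image of a fully invariant congruence (row MIR: `RR (mir β) l l' ↔ RR β l.reverse
l'.reverse`) -/
def mir (β : FIC) : FIC := FIC.op β

/-! ### the words of the lemma on local letters -/

/-- the letters `z_e`, `e` in `D` -/
def zs (D : List ℕ) : List ℕ := D.map (fun e => 3 * e + 1)

/-- main block `L` (label `0`), the isolated place of `z_e` is the block with the label `e + 1` -/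
def Wm (P Q L : List ℕ) : List ℕ :=
  Bw (P.map (fun e => e + 1) ++ 0 :: Q.map (fun e => e + 1))
    (fun r => if r = 0 then L else [3 * (r - 1) + 1])

/-- the word `P y z_0 … z_(m-1) y Q` -/
def bw (P Q : List ℕ) (m : ℕ) : List ℕ := Wm P Q (0 :: (zs (List.range m) ++ [0]))

/-- the hypothesis of the proof of N2: in all words equivalent to `bw P Q m` all letters `z_e` have
an occurrence between two occurrences of `y` -/
def HH (β : FIC) (P Q : List ℕ) (m : ℕ) : Prop :=
  ∀ w', RR β (bw P Q m) w' → ∀ e < m, Btw 0 (3 * e + 1) w'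

/-- every index is replaced by five copies -/
def star (P : List ℕ) : List ℕ := P.flatMap (fun i => (List.range 5).map (fun k => 5 * i + k))

/-- the `k`-th copy of the chain -/
def cc (m k : ℕ) : List ℕ := (List.range m).map (fun i => 3 * (5 * i + k) + 1)

/-- the main block of `p_g`: `y_(g 0)` goes around the copies `0, 1`, `y_(g 1)` around `1, 2`,
`y_(g 2)` around `2, 3` and `y_(g 3)` around `3, 4` -/
def Lg (m : ℕ) (g : Equiv.Perm (Fin 4)) : List ℕ :=
  [3 * (g 0).val] ++ cc m 0 ++ [3 * (g 1).val] ++ cc m 1 ++ [3 * (g 0).val, 3 * (g 2).val] ++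
    cc m 2 ++ [3 * (g 1).val, 3 * (g 3).val] ++ cc m 3 ++ [3 * (g 2).val] ++ cc m 4 ++
      [3 * (g 3).val]

/-- the word `p_g` -/
def pw (P Q : List ℕ) (m : ℕ) (g : Equiv.Perm (Fin 4)) : List ℕ := Wm (star P) (star Q) (Lg m g)

/-- the projection to `y_j` and the `k`-th copy -/
def pj (j k : ℕ) (c : ℕ) : List ℕ :=
  if c % 3 = 0 then (if c = 3 * j then [0] else [])
  else if c % 3 = 1 then (if (c / 3) % 5 = k then [3 * (c / 3 / 5) + 1] else [])
  else if c = 2 then [2]
  else if (c / 3 - 1) % 5 = k then [3 * ((c / 3 - 1) / 5 + 1) + 2] else []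

/-- the main block `L`: after the projection to `y_j` and the `k`-th copy the word is equivalent to
`P y z_0 … z_(m-1) y Q` -/
def Inc (β : FIC) (P Q : List ℕ) (m : ℕ) (L : List ℕ) (j k : ℕ) : Prop :=
  RR β (Wm P Q (L.flatMap (pj j k))) (bw P Q m)

/-- the main blocks of the same content as the main blocks of the words `p_g` in which `y_(g j)` is
around the copies `j` and `j + 1` and around no other copy -/
def SL (β : FIC) (P Q : List ℕ) (m : ℕ) (g : Equiv.Perm (Fin 4)) (L : List ℕ) : Prop :=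
  L.Perm (Lg m 1) ∧
    ∀ j : Fin 4, ∀ k < 5, Inc β P Q m L (g j).val k ↔ (k = j.val ∨ k = j.val + 1)

/-- the words with such a main block -/
def SS (β : FIC) (P Q : List ℕ) (m : ℕ) (g : Equiv.Perm (Fin 4)) (w : List ℕ) : Prop :=
  ∃ L : List ℕ, w = Wm (star P) (star Q) L ∧ SL β P Q m g L

/-! ### the words of the lemma on compound pins -/

/-- block `0` is `X`, block `1` is `L`, block `e + 2` is `z_e` -/
def Eg (R X L : List ℕ) : List ℕ :=
  Bw R (fun r => if r = 0 then X else if r = 1 then L else [3 * (r - 2) + 1])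

/-- block `0` is `X`, block `1` is `x z_(c 0) … z_(c (m-1)) y`, block `e + 2` is `z_e` -/
def Ew (R c X : List ℕ) : List ℕ := Eg R X (0 :: (zs c ++ [3]))

/-- two letters which have one occurrence in a common block and another occurrence in two other
blocks; `k1`, `k2` say whether the other occurrences stand before; `rg` says that their order in
the common block is kept by `β` -/
def rg (β : FIC) (k1 k2 : Prop) : Prop :=
  (k1 → k2 → ¬ S3 β) ∧ (¬ k1 → ¬ k2 → ¬ S1 β) ∧ (k1 → ¬ k2 → ¬ S2 β) ∧ (¬ k1 → k2 → ¬ S2 β)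

/-- the letters `3 i`, `i < 4`, with copies `h 0`, `h 1`, `h 2` of the chain between them -/
def L3 (h : ℕ → List ℕ) : List ℕ :=
  0 :: (zs ((h 0).map (fun i => 3 * i)) ++ 3 :: (zs ((h 1).map (fun i => 3 * i + 1)) ++
    6 :: (zs ((h 2).map (fun i => 3 * i + 2)) ++ [9])))

/-- the place blocks: three copies of `z_(r-2)` -/
def Z3 (r : ℕ) : List ℕ :=
  [3 * (3 * (r - 2)) + 1, 3 * (3 * (r - 2) + 1) + 1, 3 * (3 * (r - 2) + 2) + 1]

/-- the words of the pentagon: block `0` is the arrangement `s` of `0, 3, 6, 9` -/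
def Fw (R s c : List ℕ) : List ℕ :=
  Bw R (fun r => if r = 0 then s.map (fun i => 3 * i) else if r = 1 then L3 (fun _ => c) else Z3 r)

/-- the family: block `0` is the arrangement `s` of `0, 3, 6, 9`, the block `1` has three
arrangements of the chain from `G`, the place blocks are rearranged -/
def Fam (R : List ℕ) (G : List ℕ → Prop) (s w : List ℕ) : Prop :=
  s.Perm [0, 1, 2, 3] ∧ ∃ (h : ℕ → List ℕ) (B : ℕ → List ℕ), (∀ k < 3, G (h k)) ∧
    B 0 = s.map (fun i => 3 * i) ∧ B 1 = L3 h ∧ (∀ r ∈ R, 2 ≤ r → (B r).Perm (Z3 r)) ∧ w = Bw R B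

/-- `G` is a set of arrangements of the chain which is closed under the equivalences of the words
`Ew` -/
structure GOk (β : FIC) (m : ℕ) (R : List ℕ) (G : List ℕ → Prop) : Prop where
  perm : ∀ h, G h → h.Perm (List.range m)
  cl : ∀ h X w', G h → (X = [0, 3] ∨ X = [3, 0]) → RR β (Ew R h X) w' →
    ∃ h', G h' ∧ w' = Ew R h' X

end Pool.Agent.MVD
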