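import Pool.Agent.MVD.Defs

/-!
# Local letters in class c (definitions)

In words of class c a local letter (all its occurrences are in one block) cannot be gathered in
general.  `E32`, `E23`, `E32d`, `E23d` say that the last (first) occurrence of a local letter `y`
commutes with the last (first) occurrence of `x` in certain cases.
-/

namespace Pool.Agent.MVD

open Pool.Agent.Helper14_MV Pool.Agent.Helper2_MV

/-- last occurrences of `x` and of the local letter `y`; `x` has at least three occurrences -/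
def E32 (β : FIC) : Prop := ∀ (p c q : List ℕ) (x y : ℕ), y ∈ c → y ∉ p → y ∉ q → x ∉ q →
  Mult c (p ++ (c ++ x :: y :: q)) → 3 ≤ (p ++ (c ++ x :: y :: q)).count x →
    RR β (p ++ (c ++ x :: y :: q)) (p ++ (c ++ y :: x :: q))

/-- last occurrences of `x` and of the local letter `y`; `y` has at least three occurrences -/
def E23 (β : FIC) : Prop := ∀ (p c q : List ℕ) (x y : ℕ), y ∈ c → y ∉ p → y ∉ q → x ∉ q →
  Mult c (p ++ (c ++ x :: y :: q)) → 2 ≤ (p ++ (c ++ x :: y :: q)).count x →
    3 ≤ (p ++ (c ++ x :: y :: q)).count y →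
      RR β (p ++ (c ++ x :: y :: q)) (p ++ (c ++ y :: x :: q))

/-- mirror image of `E32`: first occurrences -/
def E32d (β : FIC) : Prop := ∀ (p c q : List ℕ) (x y : ℕ), y ∈ c → y ∉ p → y ∉ q → x ∉ p →
  Mult c (p ++ x :: y :: (c ++ q)) → 3 ≤ (p ++ x :: y :: (c ++ q)).count x →
    RR β (p ++ x :: y :: (c ++ q)) (p ++ y :: x :: (c ++ q))

/-- mirror image of `E23`: first occurrences -/
def E23d (β : FIC) : Prop := ∀ (p c q : List ℕ) (x y : ℕ), y ∈ c → y ∉ p → y ∉ q → x ∉ p →
  Mult c (p ++ x :: y :: (c ++ q)) → 2 ≤ (p ++ x :: y :: (c ++ q)).count x →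
    3 ≤ (p ++ x :: y :: (c ++ q)).count y →
      RR β (p ++ x :: y :: (c ++ q)) (p ++ y :: x :: (c ++ q))

/-- the local condition for the third subclass of class c -/
def LC3 (β : FIC) : Prop := E32 β ∧ E32d β ∧ E23d β

end Pool.Agent.MVD
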