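import Pool.Agent.MVD.Stmts
import Pool.Agent.MVD.LocDefs

/-!
# Necessity of the local condition in class c (definitions)

Squad MVD, second part (problem MP_23468a_al).  `β` is in class c, `IA` and `IAd` are not in `β`.
-/

namespace Pool.Agent.MVD

open Pool.Agent.Helper14_MV Pool.Agent.Helper2_MV

/-- `x t xyyy ≈ x t yyyx` -/
def CB (β : FIC) : Prop := RR β [0, 2, 0, 3, 3, 3] [0, 2, 3, 3, 3, 0]

/-- `x t x s xyy ≈ x t x s yyx` -/
def CE (β : FIC) : Prop := RR β [0, 2, 0, 5, 0, 3, 3] [0, 2, 0, 5, 3, 3, 0]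

/-- `p y c y y q ≈ p y y y c q` for words `c` of length at most `n` of multiple letters -/
def GF (β : FIC) (n : ℕ) : Prop := ∀ (p c q : List ℕ) (y : ℕ), c.length ≤ n → y ∉ c →
  Mult c (p ++ y :: (c ++ y :: y :: q)) →
    RR β (p ++ y :: (c ++ y :: y :: q)) (p ++ y :: y :: y :: (c ++ q))

/-- the mirror image of `GF` -/
def GFd (β : FIC) (n : ℕ) : Prop := ∀ (p c q : List ℕ) (y : ℕ), c.length ≤ n → y ∉ c →
  Mult c (p ++ y :: y :: (c ++ y :: q)) →
    RR β (p ++ y :: y :: (c ++ y :: q)) (p ++ (c ++ y :: y :: y :: q))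

/-- `p y c x y q ≈ p y c y x q` for words `c` of length at most `n` of multiple letters, if `x` has
at least two occurrences in `p` -/
def EF (β : FIC) (n : ℕ) : Prop := ∀ (p c q : List ℕ) (x y : ℕ), c.length ≤ n →
  Mult c (p ++ y :: (c ++ x :: y :: q)) → 2 ≤ p.count x →
    RR β (p ++ y :: (c ++ x :: y :: q)) (p ++ y :: (c ++ y :: x :: q))

/-- the hypotheses: class c, modular, `A` and `Ad` do not hold -/
structure Hc (β : FIC) : Prop where
  md : ModF β
  i2 : Iso2 β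
  i3 : Iso3 β
  s2 : S2 β
  ff : FF β
  zz : ZZ β
  na : ¬ IA β
  nad : ¬ IAd β

/-- the labels: the place `i` has the label `i + 1`, the main block has the label `0` -/
def lab (P Q : List ℕ) : List ℕ := P.map (fun e => e + 1) ++ 0 :: Q.map (fun e => e + 1)

/-- main block `L`; the place `i` is a block with the letter `κ i` -/
def Wk (κ : ℕ → ℕ) (P Q L : List ℕ) : List ℕ :=
  Bw (lab P Q) (fun r => if r = 0 then L else [κ (r - 1)])

/-- the last occurrence of `a` is before the last occurrence of `b` -/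
def LA (a b : ℕ) (l : List ℕ) : Prop := ∃ A C, l = A ++ b :: C ∧ a ∉ C

/-- the first occurrence of `a` is before the first occurrence of `b` -/
def FA (a b : ℕ) (l : List ℕ) : Prop := ∃ A C, l = A ++ a :: C ∧ b ∉ A

/-- `γ` is a canonical main block with the places `P`, `Q`: the letters `3 i + 1`, `i` in `P ++ Q`,
once, and local letters `a ≡ 0 (mod 3)`, `27 ≤ a`, twice -/
structure Can (P Q γ : List ℕ) : Prop where
  nd : (P ++ Q).Nodup
  sf : ∀ a ∈ γ, a % 3 ≠ 2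
  pl : ∀ i ∈ P ++ Q, γ.count (3 * i + 1) = 1
  ps : ∀ a ∈ γ, a % 3 = 1 → ∃ i ∈ P ++ Q, a = 3 * i + 1
  lc : ∀ a ∈ γ, a % 3 = 0 → γ.count a = 2 ∧ 27 ≤ a

/-- the letter `x` has the places `s1`, `s2` -/
def kx (x s1 s2 i : ℕ) : ℕ := if i = s1 ∨ i = s2 then x else 3 * i + 1

/-- the letter `9` has the places `s1`, `s2`, the letter `12` has the places `r1`, `r2` -/
def k2 (s1 s2 r1 r2 i : ℕ) : ℕ :=
  if i = s1 ∨ i = s2 then 9 else if i = r1 ∨ i = r2 then 12 else 3 * i + 1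

/-- the words with a letter `x` with two places -/
def EW (x s1 s2 : ℕ) (P1 P2 P3 Q L : List ℕ) : List ℕ :=
  Wk (kx x s1 s2) (P1 ++ s1 :: (P2 ++ s2 :: P3)) Q L

/-- the only one letter identities for `x t x s x r` keep the last `x` in its block -/
def VX (β : FIC) : Prop := ∀ b1 b2 b3 b4 : ℕ,
  RR β [0, 2, 0, 5, 0, 8] (List.replicate b1 0 ++ 2 :: (List.replicate b2 0 ++ 5 ::
    (List.replicate b3 0 ++ 8 :: List.replicate b4 0))) → b3 = 1 ∧ b4 = 0

/-! ### the configuration for `GF` -/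

/-- canonical and not free -/
structure NF (β : FIC) (n : ℕ) (P Q γ : List ℕ) : Prop where
  hc : Hc β
  cb : CB β
  gf : GF β n
  can : Can P Q γ
  len : γ.length ≤ n + 1
  nf : ¬ RR β (Wm P Q (0 :: (γ ++ [0, 0]))) (Wm P Q (0 :: 0 :: 0 :: γ))

/-- places of the pentagon: `a`, `b` are twins of `f`, `z` is a twin of `e` -/
structure GC (β : FIC) (n : ℕ) (P1 P2 Q1 Q2 : List ℕ) (e f a b z : ℕ) (γ : List ℕ) : Prop where
  nf : NF β n (P1 ++ f :: P2) (Q1 ++ e :: Q2) γ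
  nd : ((P1 ++ a :: b :: f :: P2) ++ (Q1 ++ e :: z :: Q2)).Nodup
  hd : ∃ l, γ = (3 * e + 1) :: l
  lt : ∃ l, γ = l ++ [3 * f + 1]

/-! ### the configuration for `EF` -/

/-- canonical failing words: letters `x`, `y`, places `s1`, `s2` of `x` -/
structure EC (β : FIC) (n x y s1 s2 : ℕ) (P1 P2 P3 Q α : List ℕ) : Prop where
  hc : Hc β
  vx : VX β
  ef : EF β n
  can : Can (P1 ++ (P2 ++ P3)) Q α
  nd : ((P1 ++ s1 :: (P2 ++ s2 :: P3)) ++ Q).Nodup
  len : α.length ≤ n + 1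
  hx : x % 3 = 0 ∧ x < 27
  hy : y % 3 = 0 ∧ y < 27
  xy : x ≠ y
  nr : ¬ RR β (EW x s1 s2 P1 P2 P3 Q (y :: (α ++ [x, y])))
    (EW x s1 s2 P1 P2 P3 Q (y :: (α ++ [y, x])))

/-- the words of the pentagon for `EF`: labels and blocks; `r1`, `r2` are twins of `s1`, `s2`, the
place `h` is at the end of the left places, the place `z` at the end -/
def EV (s1 s2 r1 r2 h z : ℕ) (P1 P2 P3 Q L : List ℕ) : List ℕ :=
  Wk (k2 s1 s2 r1 r2) (P1 ++ s1 :: r1 :: (P2 ++ s2 :: r2 :: (P3 ++ [h]))) (Q ++ [z]) L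

end Pool.Agent.MVD
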